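import Pool.Agent.Helper25.KV.Goals

/-!
# Project KV, packet NIK
-/

set_option autoImplicit false

namespace Pool.Agent.Helper74.KV

open Real MeasureTheory Set Filter Topology
open scoped ENNReal
open Pool.Agent.Helper25.KV

/-- Cauchy-Schwarz on `[0,h]` -/
theorem cs (g : ℝ → ℝ) (hg : Continuous g) (h : ℝ) (hh : 0 < h) :
    (∫ s in (0:ℝ)..h, g s) ^ 2 ≤ h * ∫ s in (0:ℝ)..h, g s ^ 2 := by
  set I := ∫ s in (0:ℝ)..h, g s with hI
  have h1 : 0 ≤ ∫ s in (0:ℝ)..h, (g s - I / h) ^ 2 :=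
    intervalIntegral.integral_nonneg hh.le (fun s _ => sq_nonneg _)
  have i1 : IntervalIntegrable (fun s => g s ^ 2) volume 0 h :=
    (hg.pow 2).intervalIntegrable _ _
  have i2 : IntervalIntegrable (fun s => 2 * (I / h) * g s) volume 0 h :=
    (continuous_const.mul hg).intervalIntegrable _ _
  have i3 : IntervalIntegrable (fun _ : ℝ => (I / h) ^ 2) volume 0 h :=
    continuous_const.intervalIntegrable _ _
  have h2 : ∫ s in (0:ℝ)..h, (g s - I / h) ^ 2
      = (∫ s in (0:ℝ)..h, g s ^ 2) - 2 * (I / h) * I + h * (I / h) ^ 2 := by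
    have h3 : (fun s => (g s - I / h) ^ 2)
        = fun s => (g s ^ 2 - 2 * (I / h) * g s) + (I / h) ^ 2 := by
      funext s; ring
    rw [h3, intervalIntegral.integral_add (i1.sub i2) i3, intervalIntegral.integral_sub i1 i2,
      intervalIntegral.integral_const_mul, intervalIntegral.integral_const, ← hI, smul_eq_mul,
      sub_zero]
  rw [h2] at h1
  have h4 : h * ((∫ s in (0:ℝ)..h, g s ^ 2) - 2 * (I / h) * I + h * (I / h) ^ 2)
      = h * (∫ s in (0:ℝ)..h, g s ^ 2) - I ^ 2 := by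
    field_simp
    ring
  have h5 : 0 ≤ h * ((∫ s in (0:ℝ)..h, g s ^ 2) - 2 * (I / h) * I + h * (I / h) ^ 2) :=
    mul_nonneg hh.le h1
  rw [h4] at h5
  linarith

/-- the weight is continuous -/
theorem cont_wt (a : ℝ) : Continuous (fun x : ℝ => (1 + |x|) ^ a) := by
  apply Continuous.rpow_const (by fun_prop)
  intro x
  left
  positivity

theorem pw1 (κ : ℝ) (hκ1 : κ < 1) (f : ℝ → ℝ) (hf : ContDiff ℝ 1 f) (h : ℝ) (hh : 0 < h)
    (h1 : h ≤ 1) (R : ℝ) (hR : 1 ≤ R) (x : ℝ) (hx : |x| ≤ R) :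
    (f (x + h) - f x) ^ 2 ≤ h * (3 * R) ^ (1 - κ)
      * ∫ s in (0:ℝ)..h, deriv f (x + s) ^ 2 * (1 + |x + s|) ^ (κ - 1) := by
  have hc : Continuous (deriv f) := hf.continuous_deriv le_rfl
  have hd : Differentiable ℝ f := hf.differentiable one_ne_zero
  have e1 : f (x + h) - f x = ∫ s in (0:ℝ)..h, deriv f (x + s) := by
    have e2 := intervalIntegral.integral_comp_add_left (a := (0:ℝ)) (b := h) (deriv f) x
    rw [e2, add_zero]
    rw [intervalIntegral.integral_deriv_eq_sub (fun y _ => hd y)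
      (hc.intervalIntegrable _ _)]
  rw [e1]
  have hcx : Continuous (fun s => deriv f (x + s)) := hc.comp (by fun_prop)
  refine (cs (fun s => deriv f (x + s)) hcx h hh).trans ?_
  rw [mul_assoc]
  apply mul_le_mul_of_nonneg_left _ hh.le
  rw [← intervalIntegral.integral_const_mul]
  apply intervalIntegral.integral_mono_on hh.le
  · exact (hcx.pow 2).intervalIntegrable _ _
  · apply Continuous.intervalIntegrable
    have c1 : Continuous (fun s : ℝ => (1 + |x + s|) ^ (κ - 1)) :=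
      (cont_wt (κ - 1)).comp (by fun_prop : Continuous (fun s : ℝ => x + s))
    exact continuous_const.mul ((hcx.pow 2).mul c1)
  · intro s hs
    have hpos : 0 < 1 + |x + s| := by positivity
    have hle : 1 + |x + s| ≤ 3 * R := by
      have := abs_add_le x s
      have hs' : |s| ≤ 1 := by
        rw [abs_of_nonneg hs.1]; exact hs.2.trans h1
      linarith
    have h3 : (1 + |x + s|) ^ (1 - κ) ≤ (3 * R) ^ (1 - κ) :=
      Real.rpow_le_rpow hpos.le hle (by linarith)
    have h4 : (1 + |x + s|) ^ (1 - κ) * (1 + |x + s|) ^ (κ - 1) = 1 := by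
      rw [← Real.rpow_add hpos]
      simp
    have h5 : 0 ≤ (1 + |x + s|) ^ (κ - 1) := by positivity
    calc deriv f (x + s) ^ 2
        = deriv f (x + s) ^ 2 * ((1 + |x + s|) ^ (1 - κ) * (1 + |x + s|) ^ (κ - 1)) := by
          rw [h4, mul_one]
      _ ≤ deriv f (x + s) ^ 2 * ((3 * R) ^ (1 - κ) * (1 + |x + s|) ^ (κ - 1)) := by
          apply mul_le_mul_of_nonneg_left _ (sq_nonneg _)
          exact mul_le_mul_of_nonneg_right h3 h5
      _ = (3 * R) ^ (1 - κ) * (deriv f (x + s) ^ 2 * (1 + |x + s|) ^ (κ - 1)) := by ring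

theorem pw2 (κ : ℝ) (hκ0 : 0 < κ) (f : ℝ → ℝ) (h : ℝ) (hh : 0 < h)
    (h1 : h ≤ 1) (R : ℝ) (hR : 1 ≤ R) (x : ℝ) (hx : R < |x|) :
    (f (x + h) - f x) ^ 2 ≤ 2 * R ^ (-κ)
      * (f (x + h) ^ 2 * (1 + |x + h|) ^ κ + f x ^ 2 * (1 + |x|) ^ κ) := by
  have hR0 : 0 < R := by linarith
  have key : ∀ y : ℝ, R ≤ 1 + |y| → f y ^ 2 ≤ R ^ (-κ) * (f y ^ 2 * (1 + |y|) ^ κ) := by
    intro y hy
    have h3 : R ^ κ ≤ (1 + |y|) ^ κ := Real.rpow_le_rpow hR0.le hy hκ0.le
    have h4 : R ^ (-κ) * R ^ κ = 1 := by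
      rw [← Real.rpow_add hR0]; simp
    have h5 : 0 ≤ R ^ (-κ) := by positivity
    calc f y ^ 2 = f y ^ 2 * (R ^ (-κ) * R ^ κ) := by rw [h4, mul_one]
      _ ≤ f y ^ 2 * (R ^ (-κ) * (1 + |y|) ^ κ) := by
          apply mul_le_mul_of_nonneg_left _ (sq_nonneg _)
          exact mul_le_mul_of_nonneg_left h3 h5
      _ = R ^ (-κ) * (f y ^ 2 * (1 + |y|) ^ κ) := by ring
  have k1 := key x (by linarith)
  have k2 := key (x + h) (by
    have := abs_sub_abs_le_abs_sub x (-h)
    rw [sub_neg_eq_add, abs_neg, abs_of_pos hh] at this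
    linarith)
  nlinarith [sq_nonneg (f (x + h) + f x)]

/-- PACKET NIK -/
theorem thm_NIK : H_NIK := by
  intro κ hκ0 hκ1 f C hf iF hF iG hG h hh h1
  set F : ℝ → ℝ := fun x => f x ^ 2 * (1 + |x|) ^ κ with hFdef
  set G : ℝ → ℝ := fun x => deriv f x ^ 2 * (1 + |x|) ^ (κ - 1) with hGdef
  have hc : Continuous (deriv f) := hf.continuous_deriv le_rfl
  have hGc : Continuous G := (hc.pow 2).mul (cont_wt (κ - 1))
  have hFc : Continuous F := (hf.continuous.pow 2).mul (cont_wt κ)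
  have hG0 : ∀ x, 0 ≤ G x := fun x => by
    simp only [hGdef]; positivity
  have hF0 : ∀ x, 0 ≤ F x := fun x => by
    simp only [hFdef]; positivity
  set R : ℝ := h ^ (-2 : ℝ) with hRdef
  have hR : 1 ≤ R := Real.one_le_rpow_of_pos_of_le_one_of_nonpos hh h1 (by norm_num)
  have hR0 : 0 < R := by linarith
  -- the average of G
  set J : ℝ → ℝ := fun x => ∫ s in Ioc (0:ℝ) h, G (x + s) with hJdef
  have hJi : ∀ x, J x = ∫ s in (0:ℝ)..h, G (x + s) := fun x => by
    rw [intervalIntegral.integral_of_le hh.le]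
  have hK : Integrable (fun p : ℝ × ℝ => G (p.1 + p.2))
      (volume.prod (volume.restrict (Ioc (0:ℝ) h))) := by
    have hm : AEStronglyMeasurable (fun p : ℝ × ℝ => G (p.1 + p.2))
        (volume.prod (volume.restrict (Ioc (0:ℝ) h))) :=
      (hGc.comp (continuous_fst.add continuous_snd)).aestronglyMeasurable
    rw [integrable_prod_iff' hm]
    constructor
    · exact Eventually.of_forall fun s => iG.comp_add_right s
    · have h3 : (fun s : ℝ => ∫ x, ‖G (x + s)‖) = fun _ => ∫ x, ‖G x‖ := by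
        funext s
        exact integral_add_right_eq_self (fun x => ‖G x‖) s
      simp only at h3 ⊢
      rw [h3]
      exact integrable_const _
  have hJint : Integrable J := hK.integral_prod_left
  have hJval : ∫ x, J x = h * ∫ x, G x := by
    have h3 := integral_integral_swap (f := fun x s => G (x + s)) (μ := volume)
      (ν := volume.restrict (Ioc (0:ℝ) h)) hK
    rw [hJdef]
    simp only at h3 ⊢
    rw [h3]
    have h4 : (fun s : ℝ => ∫ x, G (x + s)) = fun _ => ∫ x, G x := by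
      funext s
      exact integral_add_right_eq_self G s
    rw [h4, integral_const, smul_eq_mul]
    simp [hh.le]
  have hpw : ∀ x, (f (x + h) - f x) ^ 2 ≤ h * (3 * R) ^ (1 - κ) * J x
      + 2 * R ^ (-κ) * (F (x + h) + F x) := by
    intro x
    have hJ0 : 0 ≤ J x := integral_nonneg (fun s => hG0 _)
    rcases le_or_gt |x| R with hx | hx
    · have h3 := pw1 κ hκ1 f hf h hh h1 R hR x hx
      rw [hJi x]
      have h4 : 0 ≤ 2 * R ^ (-κ) * (F (x + h) + F x) :=
        mul_nonneg (by positivity) (add_nonneg (hF0 _) (hF0 _))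
      simp only [hGdef]
      linarith
    · have h3 := pw2 κ hκ0 f h hh h1 R hR x hx
      have h4 : 0 ≤ h * (3 * R) ^ (1 - κ) * J x := mul_nonneg (by positivity) hJ0
      simp only [hFdef]
      linarith
  have iFh : Integrable (fun x => F (x + h)) := iF.comp_add_right h
  have iD : Integrable (fun x => h * (3 * R) ^ (1 - κ) * J x
      + 2 * R ^ (-κ) * (F (x + h) + F x)) :=
    (hJint.const_mul _).add ((iFh.add iF).const_mul _)
  have iL : Integrable (fun x => (f (x + h) - f x) ^ 2) := by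
    refine iD.mono' ?_ ?_
    · apply Continuous.aestronglyMeasurable
      exact ((hf.continuous.comp (by fun_prop)).sub hf.continuous).pow 2
    · refine Eventually.of_forall fun x => ?_
      rw [Real.norm_eq_abs, abs_of_nonneg (sq_nonneg _)]
      exact hpw x
  refine ⟨iL, ?_⟩
  have hmono : (∫ x, (f (x + h) - f x) ^ 2) ≤ ∫ x, (h * (3 * R) ^ (1 - κ) * J x
      + 2 * R ^ (-κ) * (F (x + h) + F x)) := integral_mono iL iD hpw
  have hval : (∫ x, (h * (3 * R) ^ (1 - κ) * J x + 2 * R ^ (-κ) * (F (x + h) + F x)))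
      = h * (3 * R) ^ (1 - κ) * (h * ∫ x, G x) + 2 * R ^ (-κ) * ((∫ x, F x) + ∫ x, F x) := by
    have iS : Integrable (fun x => F (x + h) + F x) := iFh.add iF
    have h3 : (∫ x, (F (x + h) + F x)) = (∫ x, F (x + h)) + ∫ x, F x := integral_add iFh iF
    rw [integral_add (hJint.const_mul _) (iS.const_mul _), integral_const_mul,
      integral_const_mul, hJval, h3, integral_add_right_eq_self F h]
  have hh2 : R ^ (-κ) = h ^ (2 * κ) := by
    rw [hRdef, ← Real.rpow_mul hh.le]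
    congr 1
    ring
  have hh3 : h * (3 * R) ^ (1 - κ) * h = 3 ^ (1 - κ) * h ^ (2 * κ) := by
    rw [Real.mul_rpow (by norm_num) hR0.le, hRdef, ← Real.rpow_mul hh.le]
    have h5 : h ^ (2 * κ) = h ^ (2 : ℝ) * h ^ (-2 * (1 - κ)) := by
      rw [← Real.rpow_add hh]
      congr 1
      ring
    rw [h5, Real.rpow_two]
    ring
  have hC : 0 ≤ C := le_trans (integral_nonneg hF0) hF
  have hp : 0 ≤ h ^ (2 * κ) := by positivity
  have h3le : (3 : ℝ) ^ (1 - κ) ≤ 3 := by
    calc (3 : ℝ) ^ (1 - κ) ≤ 3 ^ (1 : ℝ) :=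
          Real.rpow_le_rpow_of_exponent_le (by norm_num) (by linarith)
      _ = 3 := Real.rpow_one 3
  calc (∫ x, (f (x + h) - f x) ^ 2)
      ≤ h * (3 * R) ^ (1 - κ) * (h * ∫ x, G x) + 2 * R ^ (-κ) * ((∫ x, F x) + ∫ x, F x) := by
        rw [← hval]; exact hmono
    _ = (h * (3 * R) ^ (1 - κ) * h) * (∫ x, G x) + 4 * R ^ (-κ) * (∫ x, F x) := by ring
    _ = 3 ^ (1 - κ) * h ^ (2 * κ) * (∫ x, G x) + 4 * h ^ (2 * κ) * (∫ x, F x) := by
        rw [hh3, hh2]
    _ ≤ 3 * h ^ (2 * κ) * C + 4 * h ^ (2 * κ) * C := by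
        apply add_le_add
        · have h6 : (3 : ℝ) ^ (1 - κ) * h ^ (2 * κ) ≤ 3 * h ^ (2 * κ) :=
            mul_le_mul_of_nonneg_right h3le hp
          exact mul_le_mul h6 hG (integral_nonneg hG0) (by positivity)
        · exact mul_le_mul_of_nonneg_left hF (by positivity)
    _ = 7 * C * h ^ (2 * κ) := by ring

end Pool.Agent.Helper74.KV
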