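import Pool.Agent.Helper33.KV.GoalsF
import Pool.Agent.Helper61.KV.ECL1

/-!
# Project KV, packet F-PAIR
-/

set_option autoImplicit false

namespace Pool.Agent.Helper74.KV

open Real MeasureTheory Set Filter Topology Pool.Agent.Helper41.KV Pool.Agent.Helper33.KV
open Pool.Agent.Helper61.KV

/-! ### Part A: integrals of products -/

/-- `∫ e^{-|y|/4}` -/
noncomputable def I4 : ℝ := ∫ y : ℝ, exp (-(1 / 4) * |y|)

theorem int4 : Integrable (fun y : ℝ => exp (-(1 / 4) * |y|)) := by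
  have hint : Integrable (fun x : ℝ => 32 * (1 + x ^ 2)⁻¹) :=
    integrable_inv_one_add_sq.const_mul _
  refine hint.mono' (by fun_prop) (Filter.Eventually.of_forall fun y => ?_)
  rw [Real.norm_eq_abs, abs_of_pos (exp_pos _)]
  have h2 : exp (-(1 / 4) * |y|) = (exp (1 / 4 * |y|))⁻¹ := by
    rw [← Real.exp_neg]
    congr 1
    ring
  rw [h2]
  have h3 : (1 + y ^ 2) / 32 ≤ exp (1 / 4 * |y|) := by
    have h4 := Real.quadratic_le_exp_of_nonneg (show 0 ≤ 1 / 4 * |y| by positivity)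
    have h5 : y ^ 2 = |y| ^ 2 := (sq_abs y).symm
    have h6 := abs_nonneg y
    rw [h5]
    nlinarith
  have h7 : (0 : ℝ) < (1 + y ^ 2) / 32 := by positivity
  calc (exp (1 / 4 * |y|))⁻¹ ≤ ((1 + y ^ 2) / 32)⁻¹ := inv_anti₀ h7 h3
    _ = 32 * (1 + y ^ 2)⁻¹ := by rw [inv_div, div_eq_mul_inv]

theorem I4_nonneg : 0 ≤ I4 := integral_nonneg fun _ => (exp_pos _).le

theorem pbe : ∀ (f g : ℝ → ℝ) (A B : ℝ), Continuous f → Continuous g →
    0 ≤ A → 0 ≤ B → (∀ y, |f y| ≤ A * exp (|y| / 64)) → (∀ y, |g y| ≤ B * exp (-|y| / 2)) →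
    Integrable (fun y => f y * g y) ∧ |∫ y, f y * g y| ≤ I4 * A * B := by
  refine fun f g A B hf hg hA hB h1 h2 => ?_
  have hb : ∀ y, ‖f y * g y‖ ≤ (A * B) * exp (-(1 / 4) * |y|) := by
    intro y
    rw [Real.norm_eq_abs, abs_mul]
    have h4 : exp (|y| / 64) * exp (-|y| / 2) ≤ exp (-(1 / 4) * |y|) := by
      rw [← Real.exp_add]
      apply exp_le_exp.2
      have := abs_nonneg y
      linarith
    calc |f y| * |g y| ≤ (A * exp (|y| / 64)) * (B * exp (-|y| / 2)) :=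
          mul_le_mul (h1 y) (h2 y) (abs_nonneg _) (by positivity)
      _ = (A * B) * (exp (|y| / 64) * exp (-|y| / 2)) := by ring
      _ ≤ (A * B) * exp (-(1 / 4) * |y|) := mul_le_mul_of_nonneg_left h4 (by positivity)
  have hi : Integrable (fun y => f y * g y) :=
    (int4.const_mul (A * B)).mono' (hf.mul hg).aestronglyMeasurable (Eventually.of_forall hb)
  refine ⟨hi, ?_⟩
  calc |∫ y, f y * g y| ≤ ∫ y, (A * B) * exp (-(1 / 4) * |y|) := by
        rw [← Real.norm_eq_abs]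
        exact norm_integral_le_of_norm_le (int4.const_mul _) (Eventually.of_forall hb)
    _ = I4 * A * B := by
        rw [integral_const_mul]
        unfold I4
        ring

theorem isE_half {f : ℝ → ℝ} (hf : IsE f) : ∃ B, 0 ≤ B ∧ ∀ y, |f y| ≤ B * exp (-|y| / 2) := by
  obtain ⟨C, hC⟩ := hf.2 0 (1 / 2) (by norm_num)
  refine ⟨|C|, abs_nonneg _, fun y => ?_⟩
  have h1 := hC y
  rw [iteratedDeriv_zero] at h1
  refine h1.trans ?_
  have h2 : exp (-(1 / 2 * |y|)) = exp (-|y| / 2) := by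
    congr 1
    ring
  rw [h2]
  exact mul_le_mul_of_nonneg_right (le_abs_self C) (exp_pos _).le

theorem isP_zero {f : ℝ → ℝ} (hf : IsP f) : ∃ (n : ℕ) (B : ℝ), 0 ≤ B ∧
    ∀ y, |f y| ≤ B * (1 + |y|) ^ n := by
  obtain ⟨n, C, hC⟩ := hf.2 0
  refine ⟨n, |C|, abs_nonneg _, fun y => ?_⟩
  have h1 := hC y
  rw [iteratedDeriv_zero] at h1
  exact h1.trans (mul_le_mul_of_nonneg_right (le_abs_self C) (by positivity))

theorem constE {f : ℝ → ℝ} (c : ℝ) (hf : IsE f) : IsE (fun y => c * f y) := by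
  have h1 : IsP (fun _ : ℝ => c) := by
    have := polyP (Polynomial.C c)
    simpa using this
  exact mulPE h1 hf

theorem constP (c : ℝ) : IsP (fun _ : ℝ => c) := by
  have := polyP (Polynomial.C c)
  simpa using this

theorem idP : IsP (fun y : ℝ => y) := by
  have := polyP (Polynomial.X : Polynomial ℝ)
  simpa using this

theorem zeroE : IsE (fun _ : ℝ => (0 : ℝ)) := by
  have h1 : IsE (fun y => (0 : ℝ) * (1 / (Real.cosh (2 * y)) ^ 2)) := constE 0 sechE
  simpa using h1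

theorem smooth_deriv {f : ℝ → ℝ} (hf : ContDiff ℝ (⊤ : ℕ∞) f) :
    ContDiff ℝ (⊤ : ℕ∞) (deriv f) := (contDiff_infty_iff_deriv.1 hf).2

theorem it2 (f : ℝ → ℝ) : iteratedDeriv 2 f = deriv (deriv f) := by
  rw [iteratedDeriv_succ, iteratedDeriv_one]

/-! ### Part B: the reference curve and the oscillation classes -/

/-- facts on the reference curve -/
def CV (α : ℝ) : Prop :=
  (∀ t, 0 < t → 0 < sig α t ∧ 0 < lam α t ∧ 0 < rho α t ∧ lam α t = sig α t * rho α t ∧
      rho α t / lam α t ^ 3 = 1 / ((4 * α + 3) * t) ∧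
      HasDerivAt (sig α) (1 / lam α t ^ 2) t ∧
      HasDerivAt (lam α) ((2 * α + 1) * rho α t / lam α t ^ 2) t ∧
      HasDerivAt (rho α) (2 * α * rho α t ^ 2 / lam α t ^ 3) t) ∧
   (∀ s t, 0 < s → s ≤ t → sig α s ≤ sig α t ∧ lam α s ≤ lam α t ∧ rho α s ≤ rho α t)

/-- oscillation class -/
def Osc {ι : Type} (α : ℝ) (T : ι → ℝ) (k : ℕ) (F : ι → ℝ → ℝ) : Prop :=
  ∃ C : ℝ, 0 ≤ C ∧ ∀ i, ∀ t ∈ Ioc 0 (T i), |F i t| ≤ C * rho α t ^ k ∧ ∀ τ ∈ Icc (t / 2) t,
    |F i τ - F i t| ≤ C * rho α t ^ k * (rho α t / lam α t ^ 3) * (t - τ)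

theorem quo_mono {α : ℝ} (hα : 0 < α) (cv : CV α) {s t : ℝ} (ht : 0 < t) (hs : t / 2 ≤ s) :
    rho α s / lam α s ^ 3 ≤ 2 * (rho α t / lam α t ^ 3) := by
  have hs0 : 0 < s := by linarith
  rw [(cv.1 s hs0).2.2.2.2.1, (cv.1 t ht).2.2.2.2.1]
  rw [mul_one_div, div_le_div_iff₀ (by positivity) (by positivity)]
  nlinarith

theorem osc_rho {ι : Type} {α : ℝ} {T : ι → ℝ} (hα : 0 < α) (hα1 : α < 1) (cv : CV α) :
    Osc α T 1 (fun _ => rho α) := by
  refine ⟨4, by norm_num, fun i t ht => ⟨?_, fun τ hτ => ?_⟩⟩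
  · have h1 := (cv.1 t ht.1).2.2.1
    rw [abs_of_pos h1]
    linarith
  · have ht0 : 0 < t := ht.1
    have hτ0 : 0 < τ := by linarith [hτ.1]
    have hrt := (cv.1 t ht0).2.2.1
    have hq : 0 < rho α t / lam α t ^ 3 := by
      have := (cv.1 t ht0).2.1
      positivity
    have hb : ∀ s ∈ Icc τ t, ‖2 * α * rho α s ^ 2 / lam α s ^ 3‖
        ≤ 4 * rho α t * (rho α t / lam α t ^ 3) := by
      intro s hs
      have hs0 : 0 < s := lt_of_lt_of_le hτ0 hs.1
      have hls := (cv.1 s hs0).2.1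
      have hrs := (cv.1 s hs0).2.2.1
      have h1 : rho α s ≤ rho α t := (cv.2 s t hs0 hs.2).2.2
      have h2 := quo_mono hα cv ht0 (hτ.1.trans hs.1)
      rw [Real.norm_eq_abs, abs_of_nonneg (by positivity)]
      have h3 : 2 * α * rho α s ^ 2 / lam α s ^ 3
          = 2 * α * (rho α s * (rho α s / lam α s ^ 3)) := by ring
      rw [h3]
      have h4 : rho α s * (rho α s / lam α s ^ 3)
          ≤ rho α t * (2 * (rho α t / lam α t ^ 3)) :=
        mul_le_mul h1 h2 (by positivity) hrt.le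
      have h5 : 0 ≤ rho α t * (2 * (rho α t / lam α t ^ 3)) := by positivity
      nlinarith
    have h1 := Convex.norm_image_sub_le_of_norm_hasDerivWithin_le
      (f := rho α) (f' := fun s => 2 * α * rho α s ^ 2 / lam α s ^ 3) (s := Icc τ t)
      (x := t) (y := τ)
      (fun s hs => (cv.1 s (lt_of_lt_of_le hτ0 hs.1)).2.2.2.2.2.2.2.hasDerivWithinAt) hb
      (convex_Icc τ t) (right_mem_Icc.2 hτ.2) (left_mem_Icc.2 hτ.2)
    rw [Real.norm_eq_abs, Real.norm_eq_abs, abs_sub_comm τ t,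
      abs_of_nonneg (sub_nonneg.2 hτ.2)] at h1
    rw [pow_one]
    exact h1

theorem osc_const {ι : Type} {α : ℝ} {T : ι → ℝ} (cv : CV α) (c : ℝ) :
    Osc α T 0 (fun _ _ => c) := by
  refine ⟨|c|, abs_nonneg _, fun i t ht => ⟨?_, fun τ hτ => ?_⟩⟩
  · simp
  · have h1 := (cv.1 t ht.1).2.1
    have h2 := (cv.1 t ht.1).2.2.1
    have h3 : 0 ≤ t - τ := sub_nonneg.2 hτ.2
    simp only [sub_self, abs_zero]
    positivity

theorem osc_add {ι : Type} {α : ℝ} {T : ι → ℝ} {k : ℕ} {F G : ι → ℝ → ℝ} (hF : Osc α T k F)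
    (hG : Osc α T k G) : Osc α T k (fun i t => F i t + G i t) := by
  obtain ⟨C, hC, h1⟩ := hF
  obtain ⟨D, hD, h2⟩ := hG
  refine ⟨C + D, by linarith, fun i t ht => ⟨?_, fun τ hτ => ?_⟩⟩
  · have a1 := (h1 i t ht).1
    have a2 := (h2 i t ht).1
    have a3 := abs_add_le (F i t) (G i t)
    nlinarith
  · have a1 := (h1 i t ht).2 τ hτ
    have a2 := (h2 i t ht).2 τ hτ
    have a3 : F i τ + G i τ - (F i t + G i t) = (F i τ - F i t) + (G i τ - G i t) := by ring
    rw [a3]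
    have a4 := abs_add_le (F i τ - F i t) (G i τ - G i t)
    nlinarith

theorem osc_mul {ι : Type} {α : ℝ} {T : ι → ℝ} (cv : CV α) {j k : ℕ} {F G : ι → ℝ → ℝ}
    (hF : Osc α T j F) (hG : Osc α T k G) : Osc α T (j + k) (fun i t => F i t * G i t) := by
  obtain ⟨C, hC, h1⟩ := hF
  obtain ⟨D, hD, h2⟩ := hG
  refine ⟨2 * (C * D), by positivity, fun i t ht => ⟨?_, fun τ hτ => ?_⟩⟩
  · have a1 := (h1 i t ht).1
    have a2 := (h2 i t ht).1
    have hr := (cv.1 t ht.1).2.2.1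
    rw [abs_mul]
    calc |F i t| * |G i t| ≤ (C * rho α t ^ j) * (D * rho α t ^ k) :=
          mul_le_mul a1 a2 (abs_nonneg _) (by positivity)
      _ = C * D * rho α t ^ (j + k) := by rw [pow_add]; ring
      _ ≤ 2 * (C * D) * rho α t ^ (j + k) := by
          apply mul_le_mul_of_nonneg_right _ (by positivity)
          nlinarith [mul_nonneg hC hD]
  · have ht0 := ht.1
    have hτ0 : 0 < τ := by linarith [hτ.1]
    have hτT : τ ∈ Ioc 0 (T i) := ⟨hτ0, hτ.2.trans ht.2⟩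
    have hr := (cv.1 t ht.1).2.2.1
    have hl := (cv.1 t ht.1).2.1
    have hrτ := (cv.1 τ hτ0).2.2.1
    have hmono : rho α τ ≤ rho α t := (cv.2 τ t hτ0 hτ.2).2.2
    have b1 := (h1 i t ht).1
    have b2 := (h1 i t ht).2 τ hτ
    have b3 := (h2 i τ hτT).1
    have b4 := (h2 i t ht).2 τ hτ
    have hd : 0 ≤ t - τ := sub_nonneg.2 hτ.2
    have b5 : |G i τ| ≤ D * rho α t ^ k :=
      b3.trans (mul_le_mul_of_nonneg_left (pow_le_pow_left₀ hrτ.le hmono k) hD)
    have a3 : F i τ * G i τ - F i t * G i t = (F i τ - F i t) * G i τ + F i t * (G i τ - G i t) := by ring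
    rw [a3]
    calc |(F i τ - F i t) * G i τ + F i t * (G i τ - G i t)|
        ≤ |F i τ - F i t| * |G i τ| + |F i t| * |G i τ - G i t| := by
          rw [← abs_mul, ← abs_mul]; exact abs_add_le _ _
      _ ≤ (C * rho α t ^ j * (rho α t / lam α t ^ 3) * (t - τ)) * (D * rho α t ^ k)
          + (C * rho α t ^ j) * (D * rho α t ^ k * (rho α t / lam α t ^ 3) * (t - τ)) := by
          apply add_le_add
          · exact mul_le_mul b2 b5 (abs_nonneg _) (by positivity)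
          · exact mul_le_mul b1 b4 (abs_nonneg _) (by positivity)
      _ = 2 * (C * D) * rho α t ^ (j + k) * (rho α t / lam α t ^ 3) * (t - τ) := by
          rw [pow_add]; ring

theorem osc_mono {ι : Type} {α : ℝ} {T : ι → ℝ} (cv : CV α) (hT : ∀ i, rho α (T i) ≤ 1)
    {j k : ℕ} (hjk : j ≤ k) {F : ι → ℝ → ℝ} (hF : Osc α T k F) : Osc α T j F := by
  obtain ⟨C, hC, h1⟩ := hF
  refine ⟨C, hC, fun i t ht => ?_⟩
  have hr := (cv.1 t ht.1).2.2.1
  have hl := (cv.1 t ht.1).2.1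
  have hr1 : rho α t ≤ 1 := (cv.2 t (T i) ht.1 ht.2).2.2.trans (hT i)
  have hp : rho α t ^ k ≤ rho α t ^ j := pow_le_pow_of_le_one hr.le hr1 hjk
  refine ⟨(h1 i t ht).1.trans (mul_le_mul_of_nonneg_left hp hC), fun τ hτ => ?_⟩
  refine ((h1 i t ht).2 τ hτ).trans ?_
  have hd : 0 ≤ t - τ := sub_nonneg.2 hτ.2
  apply mul_le_mul_of_nonneg_right _ hd
  apply mul_le_mul_of_nonneg_right _ (by positivity)
  exact mul_le_mul_of_nonneg_left hp hC

theorem osc_congr {ι : Type} {α : ℝ} {T : ι → ℝ} {k : ℕ} {F G : ι → ℝ → ℝ}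
    (hF : Osc α T k F) (h : ∀ i, ∀ t ∈ Ioc 0 (T i), G i t = F i t) : Osc α T k G := by
  obtain ⟨C, hC, h1⟩ := hF
  refine ⟨C, hC, fun i t ht => ?_⟩
  refine ⟨by rw [h i t ht]; exact (h1 i t ht).1, fun τ hτ => ?_⟩
  have hτT : τ ∈ Ioc 0 (T i) := ⟨by linarith [hτ.1, ht.1], hτ.2.trans ht.2⟩
  rw [h i t ht, h i τ hτT]
  exact (h1 i t ht).2 τ hτ

theorem osc_pow {ι : Type} {α : ℝ} {T : ι → ℝ} (hα : 0 < α) (hα1 : α < 1) (cv : CV α)
    (k : ℕ) : Osc α T k (fun _ t => rho α t ^ k) := by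
  induction k with
  | zero => simpa using osc_const (T := T) cv 1
  | succ k ih =>
    have h1 := osc_mul cv ih (osc_rho (T := T) hα hα1 cv)
    refine osc_congr h1 (fun i t _ => ?_)
    rw [pow_succ]

/-- the derivative of a function of class `k` -/
theorem osc_deriv {ι : Type} {α : ℝ} {T : ι → ℝ} (cv : CV α) {k : ℕ} {F : ι → ℝ → ℝ}
    (hF : Osc α T k F) : ∃ C : ℝ, 0 ≤ C ∧ ∀ i, ∀ t ∈ Ioc 0 (T i), ∀ d : ℝ,
      HasDerivWithinAt (F i) d (Icc (t / 2) t) t → |lam α t ^ 3 * d| ≤ C * rho α t ^ (k + 1) := by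
  obtain ⟨C, hC, h1⟩ := hF
  refine ⟨C, hC, fun i t ht d hd => ?_⟩
  have ht0 := ht.1
  have hr := (cv.1 t ht.1).2.2.1
  have hl := (cv.1 t ht.1).2.1
  have h2 := hasDerivWithinAt_iff_tendsto_slope.1 hd
  have hne : (𝓝[Icc (t / 2) t \ {t}] t).NeBot := by
    have h3 : Icc (t / 2) t \ {t} = Ico (t / 2) t := Icc_sdiff_right
    rw [h3]
    have h4 : 𝓝[Ico (t / 2) t] t = 𝓝[<] t := nhdsWithin_Ico_eq_nhdsLT (by linarith)
    rw [h4]
    infer_instance
  have h5 : |d| ≤ C * rho α t ^ k * (rho α t / lam α t ^ 3) := by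
    have h6 : Tendsto (fun x => |slope (F i) t x|) (𝓝[Icc (t / 2) t \ {t}] t) (𝓝 |d|) := h2.abs
    refine le_of_tendsto h6 ?_
    filter_upwards [self_mem_nhdsWithin] with τ hτ
    have hτ1 : τ ∈ Icc (t / 2) t := hτ.1
    have hτ2 : τ ≠ t := hτ.2
    have hlt : τ < t := lt_of_le_of_ne hτ1.2 hτ2
    rw [slope_def_field, abs_div, div_le_iff₀ (abs_pos.2 (sub_ne_zero.2 hτ2))]
    rw [abs_sub_comm τ t, abs_of_pos (sub_pos.2 hlt)]
    exact (h1 i t ht).2 τ hτ1
  rw [abs_mul, abs_of_pos (by positivity : 0 < lam α t ^ 3)]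
  calc lam α t ^ 3 * |d| ≤ lam α t ^ 3 * (C * rho α t ^ k * (rho α t / lam α t ^ 3)) :=
        mul_le_mul_of_nonneg_left h5 (by positivity)
    _ = C * rho α t ^ (k + 1) := by
        rw [pow_succ (rho α t) k]
        field_simp

/-! ### Part C: the approximate solution, weak derivative -/

theorem inn_smooth {α : ℝ} {u : ℝ → ℝ → ℝ} {t : ℝ} (hu : ContDiff ℝ (⊤ : ℕ∞) (u t)) :
    ContDiff ℝ (⊤ : ℕ∞) (inn α u t) := by
  have h1 : inn α u t = fun y => Real.sqrt (lam α t) * u t (sig α t + lam α t * y) := rfl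
  rw [h1]
  exact contDiff_const.mul (hu.comp (contDiff_const.add (contDiff_const.mul contDiff_id)))

theorem inn_cs {α : ℝ} {u : ℝ → ℝ → ℝ} {t : ℝ} (hl : 0 < lam α t)
    (hu : HasCompactSupport (u t)) : HasCompactSupport (inn α u t) := by
  have h1 : HasCompactSupport (u t ∘ ((Homeomorph.mulLeft₀ (lam α t) hl.ne').trans
      (Homeomorph.addLeft (sig α t)))) := hu.comp_homeomorph _
  have h2 : inn α u t = fun y => Real.sqrt (lam α t) * (u t ∘ ((Homeomorph.mulLeft₀ (lam α t)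
      hl.ne').trans (Homeomorph.addLeft (sig α t)))) y := by
    funext y
    simp [inn]
  rw [h2]
  exact h1.mul_left

section bg

variable {α : ℝ} {N0 : ℕ} {K T C : ℝ} {n : ℕ} {Z V2 : ℝ → ℝ} {W Wt r r' : ℝ → ℝ → ℝ}

theorem hinf_half (hB : Bg α N0 K T C n Z V2 W Wt r r') {t : ℝ} (ht : t ∈ Ioc 0 T) :
    HInf W (t / 2) t ∧ HInf Wt (t / 2) t ∧ HasTimeDeriv W Wt (t / 2) t :=
  hB.hinf (t / 2) t (by linarith [ht.1]) (by linarith [ht.1]) ht.2

theorem W_smooth (hB : Bg α N0 K T C n Z V2 W Wt r r') {t : ℝ} (ht : t ∈ Ioc 0 T) :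
    ContDiff ℝ (⊤ : ℕ∞) (W t) :=
  (hinf_half hB ht).1.smooth t ⟨by linarith [ht.1], le_rfl⟩

theorem Wt_smooth (hB : Bg α N0 K T C n Z V2 W Wt r r') {t : ℝ} (ht : t ∈ Ioc 0 T) :
    ContDiff ℝ (⊤ : ℕ∞) (Wt t) :=
  (hinf_half hB ht).2.1.smooth t ⟨by linarith [ht.1], le_rfl⟩

theorem W_cs (hB : Bg α N0 K T C n Z V2 W Wt r r') {t : ℝ} (ht : t ∈ Ioc 0 T) :
    HasCompactSupport (W t) :=
  HasCompactSupport.intro isCompact_Icc (fun x hx => hB.supp t ht x hx)

theorem Wt_cs (hB : Bg α N0 K T C n Z V2 W Wt r r') {t : ℝ} (ht : t ∈ Ioc 0 T) :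
    HasCompactSupport (Wt t) := by
  refine HasCompactSupport.intro (isCompact_Icc (a := (-1 : ℝ)) (b := 1)) (fun x hx => ?_)
  have ht0 := ht.1
  have hmem : t ∈ Icc (t / 2) t := ⟨by linarith, le_rfl⟩
  have h1 := (hinf_half hB ht).2.2 0 t hmem x
  simp only [iteratedDeriv_zero] at h1
  have h2 : HasDerivWithinAt (fun τ => W τ x) 0 (Icc (t / 2) t) t := by
    refine (hasDerivWithinAt_const t (Icc (t / 2) t) (0 : ℝ)).congr (fun τ hτ => ?_) ?_
    · exact hB.supp τ ⟨by linarith [hτ.1], hτ.2.trans ht.2⟩ x hx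
    · exact hB.supp t ht x hx
  exact (uniqueDiffOn_Icc (by linarith : t / 2 < t) t hmem).eq_deriv _ h1 h2

theorem flux_smooth {f : ℝ → ℝ} (hf : ContDiff ℝ (⊤ : ℕ∞) f) :
    ContDiff ℝ (⊤ : ℕ∞) (flux f) := by
  have h1 : flux f = fun x => deriv (deriv f) x + f x ^ 5 := by
    funext x
    simp only [flux, it2]
  rw [h1]
  exact (smooth_deriv (smooth_deriv hf)).add (hf.pow 5)

theorem flux_cs {f : ℝ → ℝ} (hf : HasCompactSupport f) : HasCompactSupport (flux f) := by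
  have h1 : flux f = fun x => deriv (deriv f) x + f x * f x ^ 4 := by
    funext x
    simp only [flux, it2]
    ring
  rw [h1]
  exact hf.deriv.deriv.add hf.mul_right

theorem resid_eq (t : ℝ) : resid α W Wt t = fun y => lam α t ^ 3 * (inn α Wt t y
    + inn α (fun t x => deriv (flux (W t)) x) t y) := by
  funext y
  simp only [resid, inn]
  ring

theorem resid_smooth (hB : Bg α N0 K T C n Z V2 W Wt r r') {t : ℝ} (ht : t ∈ Ioc 0 T) :
    ContDiff ℝ (⊤ : ℕ∞) (resid α W Wt t) := by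
  rw [resid_eq]
  refine contDiff_const.mul ((inn_smooth (Wt_smooth hB ht)).add (inn_smooth ?_))
  exact smooth_deriv (flux_smooth (W_smooth hB ht))

theorem resid_cs (cv : CV α) (hB : Bg α N0 K T C n Z V2 W Wt r r') {t : ℝ} (ht : t ∈ Ioc 0 T) :
    HasCompactSupport (resid α W Wt t) := by
  rw [resid_eq]
  have hl := (cv.1 t ht.1).2.1
  have h1 : HasCompactSupport (fun y => inn α Wt t y
      + inn α (fun t x => deriv (flux (W t)) x) t y) := by
    refine (inn_cs hl (Wt_cs hB ht)).add (inn_cs hl ?_)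
    exact (flux_cs (W_cs hB ht)).deriv
  exact h1.mul_left

theorem int_cs {f g : ℝ → ℝ} (hf : Continuous f) (hc : HasCompactSupport f)
    (hg : Continuous g) : Integrable (fun y => f y * g y) :=
  (hf.mul hg).integrable_of_hasCompactSupport hc.mul_right

theorem lam_cont {f : ℝ → ℝ} (hf : ContDiff ℝ (⊤ : ℕ∞) f) : Continuous (Lam f) := by
  have h1 : Lam f = fun y => f y / 2 + y * deriv f y := rfl
  rw [h1]
  have h2 := (smooth_deriv hf).continuous
  have h3 := hf.continuous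
  fun_prop

/-- the bracket -/
noncomputable def Mm (α ρ : ℝ) (v f : ℝ → ℝ) : ℝ :=
  (∫ y, (deriv (deriv v) y - v y + v y ^ 5) * deriv f y) - (2 * α + 1) * ρ * ∫ y, v y * Lam f y

theorem pair_deriv (hW : S_WEAK) (hF : S_FLUXP) (h0 : 0 < α) (h1 : α < 1) (cv : CV α)
    (hB : Bg α N0 K T C n Z V2 W Wt r r') {t : ℝ} (ht : t ∈ Ioc 0 T) {f : ℝ → ℝ} (hf : IsE f) :
    HasDerivWithinAt (fun τ => ∫ y, inn α W τ y * f y)
      ((1 / lam α t ^ 3) * ((∫ y, resid α W Wt t y * f y) + Mm α (rho α t) (inn α W t) f))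
      (Icc (t / 2) t) t := by
  have ht0 := ht.1
  have hmem : t ∈ Icc (t / 2) t := ⟨by linarith, le_rfl⟩
  obtain ⟨hI1, hI2, hI3⟩ := hinf_half hB ht
  have h2 := hW α h0 h1 W Wt (t / 2) t (by linarith) (by linarith) hI1 hI2 hI3 f hf t hmem
  have h3 := (hF α h0 h1 t ht0 W (W_smooth hB ht)).2 (fun k => hI1.memLp k t hmem) f hf
  have hl := (cv.1 t ht0).2.1
  have hl3 : lam α t ^ 3 ≠ 0 := by positivity
  set v := inn α W t with hv
  have vs : ContDiff ℝ (⊤ : ℕ∞) v := inn_smooth (W_smooth hB ht)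
  have vc : HasCompactSupport v := inn_cs hl (W_cs hB ht)
  have fc : Continuous f := hf.1.continuous
  have dfc : Continuous (deriv f) := (smooth_deriv hf.1).continuous
  have lfc : Continuous (Lam f) := lam_cont hf.1
  set D : ℝ → ℝ := inn α (fun t x => deriv (flux (W t)) x) t with hD
  have Ds : ContDiff ℝ (⊤ : ℕ∞) D := inn_smooth (smooth_deriv (flux_smooth (W_smooth hB ht)))
  have Dc : HasCompactSupport D := inn_cs hl (flux_cs (W_cs hB ht)).deriv
  have ws : ContDiff ℝ (⊤ : ℕ∞) (inn α Wt t) := inn_smooth (Wt_smooth hB ht)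
  have wc : HasCompactSupport (inn α Wt t) := inn_cs hl (Wt_cs hB ht)
  have e1 : (∫ y, resid α W Wt t y * f y)
      = lam α t ^ 3 * ((∫ y, inn α Wt t y * f y) + ∫ y, D y * f y) := by
    rw [resid_eq, ← integral_add (int_cs ws.continuous wc fc) (int_cs Ds.continuous Dc fc),
      ← integral_const_mul]
    congr 1
    funext y
    ring
  have e2 : (∫ y, (deriv (deriv v) y - v y + v y ^ 5) * deriv f y)
      = (∫ y, (iteratedDeriv 2 v y + v y ^ 5) * deriv f y) - ∫ y, v y * deriv f y := by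
    have i1 : Integrable (fun y => (iteratedDeriv 2 v y + v y ^ 5) * deriv f y) := by
      rw [it2]
      have c1 : Continuous (fun y => deriv (deriv v) y + v y ^ 5) :=
        (smooth_deriv (smooth_deriv vs)).continuous.add (vs.continuous.pow 5)
      have c2 : HasCompactSupport (fun y => deriv (deriv v) y + v y ^ 5) := by
        have c3 : (fun y => deriv (deriv v) y + v y ^ 5)
            = fun y => deriv (deriv v) y + v y * v y ^ 4 := by
          funext y; ring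
        rw [c3]
        exact vc.deriv.deriv.add vc.mul_right
      exact int_cs c1 c2 dfc
    have i2 : Integrable (fun y => v y * deriv f y) := int_cs vs.continuous vc dfc
    rw [← integral_sub i1 i2]
    congr 1
    funext y
    rw [it2]
    ring
  have e3 : (∫ y, v y * (-deriv f y - (2 * α + 1) * rho α t * Lam f y))
      = -(∫ y, v y * deriv f y) - (2 * α + 1) * rho α t * ∫ y, v y * Lam f y := by
    have i2 : Integrable (fun y => v y * deriv f y) := int_cs vs.continuous vc dfc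
    have i3 : Integrable (fun y => v y * Lam f y) := int_cs vs.continuous vc lfc
    have i2n : Integrable (fun y => -(v y * deriv f y)) := i2.neg
    rw [← integral_const_mul, ← integral_neg, ← integral_sub i2n (i3.const_mul _)]
    congr 1
    funext y
    ring
  have e4 : (1 / lam α t ^ 3) * ((∫ y, resid α W Wt t y * f y) + Mm α (rho α t) v f)
      = (∫ y, inn α Wt t y * f y) + (1 / lam α t ^ 3) *
          ∫ y, v y * (-deriv f y - (2 * α + 1) * rho α t * Lam f y) := by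
    unfold Mm
    rw [e1, e2, e3]
    have h4 : (∫ y, (iteratedDeriv 2 v y + v y ^ 5) * deriv f y)
        = - (lam α t ^ 3 * ∫ y, D y * f y) := by
      rw [h3, neg_neg]
    rw [h4]
    field_simp
    ring
  rw [e4]
  exact h2

/-- pairing of the residual -/
theorem resid_pair (cv : CV α) (hK : 64 ≤ K) {f : ℝ → ℝ} (hf : IsE f) :
    ∃ C' : ℝ, 0 ≤ C' ∧ ∀ (N0 : ℕ) (T : ℝ) (W Wt r r' : ℝ → ℝ → ℝ), rho α T ≤ 1 →
      Bg α N0 K T C n Z V2 W Wt r r' →
      ∀ t ∈ Ioc 0 T, |∫ y, resid α W Wt t y * f y| ≤ C' * rho α t ^ N0 := by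
  obtain ⟨B, hB0, hBf⟩ := isE_half hf
  refine ⟨|C| + B ^ 2 * I4, add_nonneg (abs_nonneg _) (mul_nonneg (sq_nonneg _) I4_nonneg),
    fun N0 T W Wt r r' hT1 hB t ht => ?_⟩
  have ht0 := ht.1
  have hr := (cv.1 t ht0).2.2.1
  have hr1 : rho α t ≤ 1 := (cv.2 t T ht.1 ht.2).2.2.trans hT1
  set P : ℝ := rho α t ^ N0 with hP
  have hP0 : 0 < P := by positivity
  set x : ℝ → ℝ := resid α W Wt t with hx
  have xs : ContDiff ℝ (⊤ : ℕ∞) x := resid_smooth hB ht
  have xc : HasCompactSupport x := resid_cs cv hB ht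
  set w : ℝ → ℝ := fun y => wt K (rho α t) y with hw
  have hden : ∀ y, 0 < 1 + rho α t * exp (-(y / K)) := fun y => by positivity
  have wpos : ∀ y, 0 < w y := fun y => by
    simp only [hw, wt]
    exact one_div_pos.2 (hden y)
  have wcont : Continuous w := by
    have h1 : w = fun y => 1 / (1 + rho α t * exp (-(y / K))) := rfl
    rw [h1]
    refine Continuous.div continuous_const (by fun_prop) (fun y => (hden y).ne')
  have ix : Integrable (fun y => w y * x y ^ 2) := by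
    have h1 : (fun y => w y * x y ^ 2) = fun y => x y * (x y * w y) := by
      funext y; ring
    rw [h1]
    exact int_cs xs.continuous xc (xs.continuous.mul wcont)
  have dxs := smooth_deriv xs
  have idx : Integrable (fun y => w y * (deriv x y) ^ 2) := by
    have h1 : (fun y => w y * (deriv x y) ^ 2) = fun y => deriv x y * (deriv x y * w y) := by
      funext y; ring
    rw [h1]
    exact int_cs dxs.continuous xc.deriv (dxs.continuous.mul wcont)
  have hres : (∫ y, w y * x y ^ 2) ≤ |C| * P ^ 2 := by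
    have h1 := hB.res t ht
    have h2 : (∫ y, w y * x y ^ 2) ≤ ∫ y, w y * (x y ^ 2 + deriv x y ^ 2) := by
      apply integral_mono ix
      · have h3 : (fun y => w y * (x y ^ 2 + deriv x y ^ 2))
            = fun y => w y * x y ^ 2 + w y * (deriv x y) ^ 2 := by
          funext y; ring
        rw [h3]
        exact ix.add idx
      · intro y
        have := wpos y
        have h4 : 0 ≤ w y * deriv x y ^ 2 := by positivity
        simp only
        nlinarith
    refine h2.trans (h1.trans ?_)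
    have h5 : rho α t ^ (2 * N0) = P ^ 2 := by
      rw [hP, ← pow_mul, mul_comm]
    rw [h5]
    exact mul_le_mul_of_nonneg_right (le_abs_self C) (sq_nonneg P)
  have hK0 : 0 < K := by linarith
  have hwinv : ∀ y, f y ^ 2 ≤ (2 * B ^ 2 * exp (-(1 / 4) * |y|)) * w y := by
    intro y
    have h1 := hBf y
    have h2 : f y ^ 2 ≤ (B * exp (-|y| / 2)) ^ 2 := by
      rw [← sq_abs]
      exact pow_le_pow_left₀ (abs_nonneg _) h1 2
    have h3 : (B * exp (-|y| / 2)) ^ 2 = B ^ 2 * exp (-|y|) := by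
      rw [mul_pow, ← Real.exp_nat_mul]
      congr 2
      push_cast
      ring
    rw [h3] at h2
    refine h2.trans ?_
    simp only [hw, wt]
    rw [mul_one_div, le_div_iff₀ (hden y)]
    have h4 : rho α t * exp (-(y / K)) ≤ exp (|y| / 64) := by
      have h5 : -(y / K) ≤ |y| / 64 := by
        have h6 : -(y / K) ≤ |y| / K := by
          rw [← neg_div]
          exact div_le_div_of_nonneg_right (neg_le_abs y) hK0.le
        have h7 : |y| / K ≤ |y| / 64 :=
          div_le_div_of_nonneg_left (abs_nonneg y) (by norm_num) hK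
        exact h6.trans h7
      calc rho α t * exp (-(y / K)) ≤ 1 * exp (-(y / K)) :=
            mul_le_mul_of_nonneg_right hr1 (exp_pos _).le
        _ = exp (-(y / K)) := one_mul _
        _ ≤ exp (|y| / 64) := exp_le_exp.2 h5
    have h8 : 1 + rho α t * exp (-(y / K)) ≤ 2 * exp (|y| / 64) := by
      have h9 : 1 ≤ exp (|y| / 64) := Real.one_le_exp (by positivity)
      linarith
    have h10 : exp (-|y|) * exp (|y| / 64) ≤ exp (-(1 / 4) * |y|) := by
      rw [← Real.exp_add]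
      apply exp_le_exp.2
      have := abs_nonneg y
      linarith
    calc B ^ 2 * exp (-|y|) * (1 + rho α t * exp (-(y / K)))
        ≤ B ^ 2 * exp (-|y|) * (2 * exp (|y| / 64)) :=
          mul_le_mul_of_nonneg_left h8 (by positivity)
      _ = 2 * B ^ 2 * (exp (-|y|) * exp (|y| / 64)) := by ring
      _ ≤ 2 * B ^ 2 * exp (-(1 / 4) * |y|) :=
          mul_le_mul_of_nonneg_left h10 (by positivity)
  have hpt : ∀ y, ‖x y * f y‖ ≤ (1 / (2 * P)) * (w y * x y ^ 2)
      + (P * B ^ 2) * exp (-(1 / 4) * |y|) := by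
    intro y
    rw [Real.norm_eq_abs, abs_mul]
    have hwy := wpos y
    have h1 := hwinv y
    have h2 : |x y| * |f y| ≤ (1 / (2 * P)) * (w y * x y ^ 2) + (P / 2) * (f y ^ 2 / w y) := by
      have h3 : 0 ≤ (1 / (2 * P)) * (w y) * (|x y| - P / w y * |f y|) ^ 2 := by positivity
      have h4 : (1 / (2 * P)) * (w y) * (|x y| - P / w y * |f y|) ^ 2
          = (1 / (2 * P)) * (w y * |x y| ^ 2) + (P / 2) * (|f y| ^ 2 / w y)
            - |x y| * |f y| := by
        field_simp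
        ring
      rw [h4, sq_abs, sq_abs] at h3
      linarith
    have h5 : f y ^ 2 / w y ≤ 2 * B ^ 2 * exp (-(1 / 4) * |y|) := by
      rw [div_le_iff₀ hwy]
      exact h1
    have h6 : (P / 2) * (f y ^ 2 / w y) ≤ (P / 2) * (2 * B ^ 2 * exp (-(1 / 4) * |y|)) :=
      mul_le_mul_of_nonneg_left h5 (by positivity)
    linarith
  have hi : Integrable (fun y => (1 / (2 * P)) * (w y * x y ^ 2)
      + (P * B ^ 2) * exp (-(1 / 4) * |y|)) := (ix.const_mul _).add (int4.const_mul _)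
  calc |∫ y, x y * f y| ≤ ∫ y, ((1 / (2 * P)) * (w y * x y ^ 2)
      + (P * B ^ 2) * exp (-(1 / 4) * |y|)) := by
        rw [← Real.norm_eq_abs]
        exact norm_integral_le_of_norm_le hi (Eventually.of_forall hpt)
    _ = (1 / (2 * P)) * (∫ y, w y * x y ^ 2) + (P * B ^ 2) * I4 := by
        rw [integral_add (ix.const_mul _) (int4.const_mul _), integral_const_mul,
          integral_const_mul]
        rfl
    _ ≤ (1 / (2 * P)) * (|C| * P ^ 2) + (P * B ^ 2) * I4 := by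
        gcongr
    _ ≤ (|C| + B ^ 2 * I4) * P := by
        have h1 : (1 / (2 * P)) * (|C| * P ^ 2) = |C| * P / 2 := by
          field_simp
        rw [h1]
        have h2 : 0 ≤ |C| * P := by positivity
        nlinarith

/-! ### Part D: expansions -/

theorem r_bd (hB : Bg α N0 K T C n Z V2 W Wt r r') {t : ℝ} (ht : t ∈ Ioc 0 T) (y : ℝ) :
    |r t y| ≤ C * exp (|y| / 64) := by
  have h1 := (hB.rbd t ht).2 0 (by norm_num) y
  rwa [iteratedDeriv_zero] at h1

end bg

/-- the admissible data -/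
structure Ix (α K C : ℝ) (n : ℕ) (Z V2 : ℝ → ℝ) where
  N0 : ℕ
  T : ℝ
  W : ℝ → ℝ → ℝ
  Wt : ℝ → ℝ → ℝ
  r : ℝ → ℝ → ℝ
  r' : ℝ → ℝ → ℝ
  hT : 0 < T
  hT1 : rho α T ≤ 1
  hB : Bg α N0 K T C n Z V2 W Wt r r'

section bg

variable {α : ℝ} {N0 : ℕ} {K T C : ℝ} {n : ℕ} {Z V2 : ℝ → ℝ} {W Wt r r' : ℝ → ℝ → ℝ}

theorem osc_r (hα : 0 < α) (cv : CV α) (hC : 0 ≤ C) {g : ℝ → ℝ} (hg : IsE g) :
    Osc α (fun i : Ix α K C n Z V2 => i.T) 0 (fun i t => ∫ y, i.r t y * g y) := by
  have hI4 := I4_nonneg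
  obtain ⟨B, hB0, hBg⟩ := isE_half hg
  have gc : Continuous g := hg.1.continuous
  refine ⟨2 * (I4 * C * B), by positivity, fun i => ?_⟩
  obtain ⟨N0, T, W, Wt, r, r', hT, hT1, hB⟩ := i
  simp only
  refine fun t ht => ⟨?_, fun τ hτ => ?_⟩
  · have h1 := (pbe (r t) g C B (hB.rbd t ht).1.continuous gc hC hB0 (r_bd hB ht) hBg).2
    rw [pow_zero, mul_one]
    have h2 : 0 ≤ I4 * C * B := by positivity
    linarith
  · have ht0 := ht.1
    have hτ0 : 0 < τ := by linarith [hτ.1]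
    have hτT : τ ∈ Ioc 0 T := ⟨hτ0, hτ.2.trans ht.2⟩
    have hd : 0 ≤ t - τ := sub_nonneg.2 hτ.2
    have hl := (cv.1 t ht0).2.1
    have hr := (cv.1 t ht0).2.2.1
    have i1 := (pbe (r t) g C B (hB.rbd t ht).1.continuous gc hC hB0 (r_bd hB ht) hBg).1
    have i2 := (pbe (r τ) g C B (hB.rbd τ hτT).1.continuous gc hC hB0 (r_bd hB hτT) hBg).1
    have e1 : (∫ y, r τ y * g y) - (∫ y, r t y * g y) = ∫ y, (r τ y - r t y) * g y := by
      rw [← integral_sub i2 i1]
      congr 1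
      funext y
      ring
    rw [e1]
    have hdiff : ∀ y, |r τ y - r t y|
        ≤ (2 * C * (rho α t / lam α t ^ 3) * (t - τ)) * exp (|y| / 64) := by
      intro y
      have hsub : Icc τ t ⊆ Ioc 0 T := fun s hs => ⟨lt_of_lt_of_le hτ0 hs.1, hs.2.trans ht.2⟩
      have hb : ∀ s ∈ Icc τ t, ‖r' s y‖ ≤ C * (2 * (rho α t / lam α t ^ 3)) * exp (|y| / 64) := by
        intro s hs
        have h1 := (hB.rt s (hsub hs) y).2
        rw [Real.norm_eq_abs]
        refine h1.trans ?_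
        apply mul_le_mul_of_nonneg_right _ (by positivity)
        exact mul_le_mul_of_nonneg_left (quo_mono hα cv ht0 (hτ.1.trans hs.1)) hC
      have h1 := Convex.norm_image_sub_le_of_norm_hasDerivWithin_le
        (f := fun s => r s y) (f' := fun s => r' s y) (s := Icc τ t)
        (x := t) (y := τ)
        (fun s hs => (hB.rt s (hsub hs) y).1.mono hsub) hb
        (convex_Icc τ t) (right_mem_Icc.2 hτ.2) (left_mem_Icc.2 hτ.2)
      rw [Real.norm_eq_abs, Real.norm_eq_abs, abs_sub_comm τ t, abs_of_nonneg hd] at h1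
      calc |r τ y - r t y| ≤ C * (2 * (rho α t / lam α t ^ 3)) * exp (|y| / 64) * (t - τ) := h1
        _ = _ := by ring
    have h2 := (pbe (fun y => r τ y - r t y) g (2 * C * (rho α t / lam α t ^ 3) * (t - τ)) B
      ((hB.rbd τ hτT).1.continuous.sub (hB.rbd t ht).1.continuous) gc (by positivity) hB0 hdiff
      hBg).2
    rw [pow_zero, mul_one]
    calc |∫ y, (r τ y - r t y) * g y| ≤ I4 * (2 * C * (rho α t / lam α t ^ 3) * (t - τ)) * B := h2
      _ = _ := by ring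

theorem expand (hC : 0 ≤ C) (hB : Bg α N0 K T C n Z V2 W Wt r r') (hQ : IsE Q) (hZ : IsP Z)
    (hV : IsP V2) {t : ℝ} (ht : t ∈ Ioc 0 T) {f : ℝ → ℝ} (hf : IsE f) :
    (∫ y, inn α W t y * f y) = (∫ y, Q y * f y) + rho α t * (kap α * ∫ y, Z y * f y)
      + rho α t ^ 2 * (∫ y, V2 y * f y) + rho α t ^ 3 * ∫ y, r t y * f y := by
  obtain ⟨B, hB0, hBg⟩ := isE_half hf
  have i1 : Integrable (fun y => Q y * f y) := intE (mulPE (E_P hQ) hf)
  have i2 : Integrable (fun y => Z y * f y) := intE (mulPE hZ hf)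
  have i3 : Integrable (fun y => V2 y * f y) := intE (mulPE hV hf)
  have i4 : Integrable (fun y => r t y * f y) :=
    (pbe (r t) f C B (hB.rbd t ht).1.continuous hf.1.continuous hC hB0 (r_bd hB ht) hBg).1
  have e1 : (fun y => inn α W t y * f y) = fun y => ((Q y * f y
      + (rho α t * kap α) * (Z y * f y)) + rho α t ^ 2 * (V2 y * f y))
      + rho α t ^ 3 * (r t y * f y) := by
    funext y
    rw [hB.expn t ht y]
    ring
  have j2 : Integrable (fun y => Q y * f y + (rho α t * kap α) * (Z y * f y)) :=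
    i1.add (i2.const_mul _)
  have j3 : Integrable (fun y => (Q y * f y + (rho α t * kap α) * (Z y * f y))
      + rho α t ^ 2 * (V2 y * f y)) := j2.add (i3.const_mul _)
  rw [e1, integral_add j3 (i4.const_mul _), integral_add j2 (i3.const_mul _),
    integral_add i1 (i2.const_mul _), integral_const_mul, integral_const_mul, integral_const_mul]
  ring

/-- the tangent vector with coefficients `g0`, `g1`, `g2` -/
def GG (g0 g1 g2 : ℝ → ℝ) (ρ y : ℝ) : ℝ := g0 y + ρ * g1 y + ρ ^ 2 * g2 y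

theorem GG_E {g0 g1 g2 : ℝ → ℝ} (h0 : IsE g0) (h1 : IsE g1) (h2 : IsE g2) (ρ : ℝ) :
    IsE (GG g0 g1 g2 ρ) := addE (addE h0 (constE ρ h1)) (constE (ρ ^ 2) h2)

theorem v_smooth (hB : Bg α N0 K T C n Z V2 W Wt r r') {t : ℝ} (ht : t ∈ Ioc 0 T) :
    ContDiff ℝ (⊤ : ℕ∞) (inn α W t) := inn_smooth (W_smooth hB ht)

theorem v_cs (cv : CV α) (hB : Bg α N0 K T C n Z V2 W Wt r r') {t : ℝ} (ht : t ∈ Ioc 0 T) :
    HasCompactSupport (inn α W t) := inn_cs (cv.1 t ht.1).2.1 (W_cs hB ht)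

theorem cs_it {f : ℝ → ℝ} (hf : HasCompactSupport f) (k : ℕ) :
    HasCompactSupport (iteratedDeriv k f) := by
  induction k with
  | zero => rwa [iteratedDeriv_zero]
  | succ k ih => rw [iteratedDeriv_succ]; exact ih.deriv

theorem cs_P {f : ℝ → ℝ} (hs : ContDiff ℝ (⊤ : ℕ∞) f) (hf : HasCompactSupport f) : IsP f := by
  refine ⟨hs, fun k => ?_⟩
  have h1 : Continuous (iteratedDeriv k f) :=
    hs.continuous_iteratedDeriv k (by exact_mod_cast le_top)
  obtain ⟨D, hD⟩ := h1.bounded_above_of_compact_support (cs_it hf k)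
  refine ⟨0, D, fun y => ?_⟩
  have := hD y
  rw [Real.norm_eq_abs] at this
  simpa using this

theorem int_GG {v g0 g1 g2 : ℝ → ℝ} (hv : Continuous v) (hc : HasCompactSupport v)
    (h0 : IsE g0) (h1 : IsE g1) (h2 : IsE g2) (ρ : ℝ) :
    (∫ y, v y * GG g0 g1 g2 ρ y) = (∫ y, v y * g0 y) + ρ * (∫ y, v y * g1 y)
      + ρ ^ 2 * ∫ y, v y * g2 y := by
  have i0 : Integrable (fun y => v y * g0 y) := int_cs hv hc h0.1.continuous
  have i1 : Integrable (fun y => v y * g1 y) := int_cs hv hc h1.1.continuous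
  have i2 : Integrable (fun y => v y * g2 y) := int_cs hv hc h2.1.continuous
  have e1 : (fun y => v y * GG g0 g1 g2 ρ y) = fun y => (v y * g0 y + ρ * (v y * g1 y))
      + ρ ^ 2 * (v y * g2 y) := by
    funext y
    unfold GG
    ring
  have j1 : Integrable (fun y => v y * g0 y + ρ * (v y * g1 y)) := i0.add (i1.const_mul _)
  rw [e1, integral_add j1 (i2.const_mul _), integral_add i0 (i1.const_mul _), integral_const_mul,
    integral_const_mul]

/-- the pairing in the moving direction -/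
noncomputable def DD (α : ℝ) (W : ℝ → ℝ → ℝ) (g0 g1 g2 : ℝ → ℝ) (t : ℝ) : ℝ :=
  ∫ y, inn α W t y * GG g0 g1 g2 (rho α t) y

theorem osc_DD (hα : 0 < α) (hα1 : α < 1) (cv : CV α) (hC : 0 ≤ C)
    (hQ : IsE Q) (hZ : IsP Z) (hV : IsP V2)
    {g0 g1 g2 : ℝ → ℝ} (h0 : IsE g0) (h1 : IsE g1) (h2 : IsE g2)
    (e0 : (∫ y, Q y * g0 y) = 0)
    (e1 : kap α * (∫ y, Z y * g0 y) + (∫ y, Q y * g1 y) = 0) :
    Osc α (fun i : Ix α K C n Z V2 => i.T) 2 (fun i => DD α i.W g0 g1 g2) ∧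
    ((∫ y, V2 y * g0 y) + kap α * (∫ y, Z y * g1 y) + (∫ y, Q y * g2 y) = 0 →
      Osc α (fun i : Ix α K C n Z V2 => i.T) 3 (fun i => DD α i.W g0 g1 g2)) := by
  set E3 : Ix α K C n Z V2 → ℝ → ℝ := fun i t => ((∫ y, i.r t y * g0 y) + ((∫ y, V2 y * g1 y)
      + kap α * ∫ y, Z y * g2 y)) + rho α t ^ 1 * ((∫ y, i.r t y * g1 y) + ∫ y, V2 y * g2 y)
      + rho α t ^ 2 * (∫ y, i.r t y * g2 y) with hE3
  have hT1 : ∀ i : Ix α K C n Z V2, rho α i.T ≤ 1 := fun i => i.hT1
  have hform : ∀ i : Ix α K C n Z V2, ∀ t ∈ Ioc 0 i.T,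
      DD α i.W g0 g1 g2 t = rho α t ^ 2 * ((∫ y, V2 y * g0 y)
      + kap α * (∫ y, Z y * g1 y) + (∫ y, Q y * g2 y)) + rho α t ^ 3 * E3 i t := by
    intro i t ht
    unfold DD
    rw [int_GG (v_smooth i.hB ht).continuous (v_cs cv i.hB ht) h0 h1 h2,
      expand hC i.hB hQ hZ hV ht h0, expand hC i.hB hQ hZ hV ht h1,
      expand hC i.hB hQ hZ hV ht h2]
    simp only [hE3]
    linear_combination e0 + rho α t * e1
  have oE3 : Osc α (fun i : Ix α K C n Z V2 => i.T) 0 E3 := by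
    have o0 := osc_r (K := K) (n := n) (Z := Z) (V2 := V2) hα cv hC h0
    have o1 := osc_r (K := K) (n := n) (Z := Z) (V2 := V2) hα cv hC h1
    have o2 := osc_r (K := K) (n := n) (Z := Z) (V2 := V2) hα cv hC h2
    have c1 := osc_const (T := fun i : Ix α K C n Z V2 => i.T) cv
      ((∫ y, V2 y * g1 y) + kap α * ∫ y, Z y * g2 y)
    have c2 := osc_const (T := fun i : Ix α K C n Z V2 => i.T) cv (∫ y, V2 y * g2 y)
    have p1 := osc_pow (T := fun i : Ix α K C n Z V2 => i.T) hα hα1 cv 1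
    have p2 := osc_pow (T := fun i : Ix α K C n Z V2 => i.T) hα hα1 cv 2
    have q1 := osc_mono cv hT1 (Nat.zero_le 1) (osc_mul cv p1 (osc_add o1 c2))
    have q2 := osc_mono cv hT1 (Nat.zero_le 2) (osc_mul cv p2 o2)
    exact osc_add (osc_add (osc_add o0 c1) q1) q2
  have p2 := osc_pow (T := fun i : Ix α K C n Z V2 => i.T) hα hα1 cv 2
  have p3 := osc_pow (T := fun i : Ix α K C n Z V2 => i.T) hα hα1 cv 3
  have o3 : Osc α (fun i : Ix α K C n Z V2 => i.T) 3 (fun i t => rho α t ^ 3 * E3 i t) :=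
    osc_mul cv p3 oE3
  constructor
  · have c1 := osc_const (T := fun i : Ix α K C n Z V2 => i.T) cv ((∫ y, V2 y * g0 y)
      + kap α * (∫ y, Z y * g1 y) + (∫ y, Q y * g2 y))
    have o2 := osc_mul cv p2 c1
    have o3' := osc_mono cv hT1 (by norm_num : 2 ≤ 3) o3
    exact osc_congr (osc_add o2 o3') hform
  · intro e2
    refine osc_congr o3 (fun i t ht => ?_)
    rw [hform i t ht, e2, mul_zero, zero_add]

theorem DD_deriv (hW : S_WEAK) (hF : S_FLUXP) (hM : S_MASSID) (hα : 0 < α) (hα1 : α < 1)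
    (cv : CV α) (hB : Bg α N0 K T C n Z V2 W Wt r r') {g0 g1 g2 : ℝ → ℝ} (h0 : IsE g0)
    (h1 : IsE g1) (h2 : IsE g2) {t : ℝ} (ht : t ∈ Ioc 0 T) :
    ∃ d : ℝ, HasDerivWithinAt (DD α W g0 g1 g2) d (Icc (t / 2) t) t ∧
      (∫ y, calL α (rho α t) (inn α W t) (GG g0 g1 g2 (rho α t))
        (fun y => 2 * α * rho α t ^ 2 * g1 y + 4 * α * rho α t ^ 3 * g2 y) y * inn α W t y)
      = lam α t ^ 3 * d - ∫ y, resid α W Wt t y * GG g0 g1 g2 (rho α t) y := by
  have ht0 := ht.1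
  have hmem : t ∈ Icc (t / 2) t := ⟨by linarith, le_rfl⟩
  have hsub : Icc (t / 2) t ⊆ Ioc 0 T := fun s hs => ⟨by linarith [hs.1], hs.2.trans ht.2⟩
  have hl := (cv.1 t ht0).2.1
  have hl3 : lam α t ^ 3 ≠ 0 := by positivity
  set ρ := rho α t with hρ
  have hG := GG_E h0 h1 h2 ρ
  have d0 := pair_deriv hW hF hα hα1 cv hB ht hG
  have d1 := pair_deriv hW hF hα hα1 cv hB ht h1
  have d2 := pair_deriv hW hF hα hα1 cv hB ht h2
  have dr : HasDerivWithinAt (rho α) (2 * α * ρ ^ 2 / lam α t ^ 3) (Icc (t / 2) t) t :=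
    (cv.1 t ht0).2.2.2.2.2.2.2.hasDerivWithinAt
  have dr1 : HasDerivWithinAt (fun τ => rho α τ - ρ) (2 * α * ρ ^ 2 / lam α t ^ 3)
      (Icc (t / 2) t) t := dr.sub_const ρ
  have dr2 : HasDerivWithinAt (fun τ => rho α τ ^ 2 - ρ ^ 2)
      (2 * ρ * (2 * α * ρ ^ 2 / lam α t ^ 3)) (Icc (t / 2) t) t := by
    have h3 := (dr.pow 2).sub_const (ρ ^ 2)
    have h4 : ((2 : ℕ) : ℝ) * rho α t ^ (2 - 1) * (2 * α * ρ ^ 2 / lam α t ^ 3)
        = 2 * ρ * (2 * α * ρ ^ 2 / lam α t ^ 3) := by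
      rw [← hρ]
      norm_num
    rw [h4] at h3
    exact h3
  have dall := (d0.add (dr1.mul d1)).add (dr2.mul d2)
  refine ⟨_, dall.congr (fun τ hτ => ?_) ?_, ?_⟩
  · have hτT := hsub hτ
    have hv := (v_smooth hB hτT).continuous
    have hc := v_cs cv hB hτT
    simp only [DD, Pi.add_apply, Pi.mul_apply]
    rw [int_GG hv hc h0 h1 h2, int_GG hv hc h0 h1 h2]
    ring
  · have hτT := ht
    have hv := (v_smooth hB hτT).continuous
    have hc := v_cs cv hB hτT
    simp only [DD, Pi.add_apply, Pi.mul_apply]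
    rw [int_GG hv hc h0 h1 h2]
    ring
  · set v := inn α W t with hv
    have vs : ContDiff ℝ (⊤ : ℕ∞) v := v_smooth hB ht
    have vc : HasCompactSupport v := v_cs cv hB ht
    have hDE : IsE (fun y => 2 * α * ρ ^ 2 * g1 y + 4 * α * ρ ^ 3 * g2 y) :=
      addE (constE _ h1) (constE _ h2)
    have hm := hM α ρ v (GG g0 g1 g2 ρ) _ (cs_P vs vc) hG hDE
    rw [hm]
    have i1 : Integrable (fun y => v y * g1 y) := int_cs vs.continuous vc h1.1.continuous
    have i2 : Integrable (fun y => v y * g2 y) := int_cs vs.continuous vc h2.1.continuous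
    have e1 : (∫ y, v y * (2 * α * ρ ^ 2 * g1 y + 4 * α * ρ ^ 3 * g2 y))
        = 2 * α * ρ ^ 2 * (∫ y, v y * g1 y) + 4 * α * ρ ^ 3 * ∫ y, v y * g2 y := by
      rw [← integral_const_mul, ← integral_const_mul,
        ← integral_add (i1.const_mul _) (i2.const_mul _)]
      congr 1
      funext y
      ring
    rw [e1]
    unfold Mm
    field_simp
    ring

theorem resid_GG (cv : CV α) (hK : 64 ≤ K) {g0 g1 g2 : ℝ → ℝ} (h0 : IsE g0)
    (h1 : IsE g1) (h2 : IsE g2) :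
    ∃ C' : ℝ, 0 ≤ C' ∧ ∀ (N0 : ℕ) (T : ℝ) (W Wt r r' : ℝ → ℝ → ℝ), rho α T ≤ 1 →
      Bg α N0 K T C n Z V2 W Wt r r' → ∀ t ∈ Ioc 0 T,
      |∫ y, resid α W Wt t y * GG g0 g1 g2 (rho α t) y| ≤ C' * rho α t ^ N0 := by
  obtain ⟨C0, hC0, k0'⟩ := resid_pair (C := C) (n := n) (Z := Z) (V2 := V2) cv hK h0
  obtain ⟨C1, hC1, k1'⟩ := resid_pair (C := C) (n := n) (Z := Z) (V2 := V2) cv hK h1
  obtain ⟨C2, hC2, k2'⟩ := resid_pair (C := C) (n := n) (Z := Z) (V2 := V2) cv hK h2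
  refine ⟨C0 + C1 + C2, by linarith, fun N0 T W Wt r r' hT1 hB t ht => ?_⟩
  have k0 := k0' N0 T W Wt r r' hT1 hB
  have k1 := k1' N0 T W Wt r r' hT1 hB
  have k2 := k2' N0 T W Wt r r' hT1 hB
  have hr := (cv.1 t ht.1).2.2.1
  have hr1 : rho α t ≤ 1 := (cv.2 t T ht.1 ht.2).2.2.trans hT1
  have b0 := k0 t ht
  have b1 := k1 t ht
  have b2 := k2 t ht
  rw [int_GG (resid_smooth hB ht).continuous (resid_cs cv hB ht) h0 h1 h2]
  set P := rho α t ^ N0 with hP
  have hP0 : 0 ≤ P := by positivity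
  have c1 : |rho α t * ∫ y, resid α W Wt t y * g1 y| ≤ C1 * P := by
    rw [abs_mul, abs_of_pos hr]
    calc rho α t * |∫ y, resid α W Wt t y * g1 y| ≤ 1 * (C1 * P) :=
          mul_le_mul hr1 b1 (abs_nonneg _) (by norm_num)
      _ = C1 * P := one_mul _
  have c2 : |rho α t ^ 2 * ∫ y, resid α W Wt t y * g2 y| ≤ C2 * P := by
    rw [abs_mul, abs_of_pos (by positivity : 0 < rho α t ^ 2)]
    have hr2 : rho α t ^ 2 ≤ 1 := pow_le_one₀ hr.le hr1
    calc rho α t ^ 2 * |∫ y, resid α W Wt t y * g2 y| ≤ 1 * (C2 * P) :=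
          mul_le_mul hr2 b2 (abs_nonneg _) (by norm_num)
      _ = C2 * P := one_mul _
  calc |(∫ y, resid α W Wt t y * g0 y) + rho α t * (∫ y, resid α W Wt t y * g1 y)
        + rho α t ^ 2 * ∫ y, resid α W Wt t y * g2 y|
      ≤ |∫ y, resid α W Wt t y * g0 y| + |rho α t * ∫ y, resid α W Wt t y * g1 y|
        + |rho α t ^ 2 * ∫ y, resid α W Wt t y * g2 y| := by
        refine (abs_add_le _ _).trans ?_
        exact add_le_add_left (abs_add_le _ _) _
    _ ≤ (C0 + C1 + C2) * P := by linarith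

theorem calL_cont {ρ : ℝ} {v τ D : ℝ → ℝ} (hv : ContDiff ℝ (⊤ : ℕ∞) v)
    (hτ : ContDiff ℝ (⊤ : ℕ∞) τ) (hD : Continuous D) : Continuous (calL α ρ v τ D) := by
  have h1 : ContDiff ℝ (⊤ : ℕ∞) (fun x => deriv (deriv τ) x - τ x + 5 * v x ^ 4 * τ x) :=
    ((smooth_deriv (smooth_deriv hτ)).sub hτ).add ((contDiff_const.mul (hv.pow 4)).mul hτ)
  have h2 := (smooth_deriv h1).continuous
  have h3 := lam_cont hτ
  have h4 : calL α ρ v τ D = fun y => D y
      + deriv (fun x => deriv (deriv τ) x - τ x + 5 * v x ^ 4 * τ x) y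
      - (2 * α + 1) * ρ * Lam τ y := rfl
  rw [h4]
  exact (hD.add h2).sub (continuous_const.mul h3)

/-! ### Part E: conclusion -/

/-- passing from `v` to `Th` -/
theorem to_Th (cv : CV α) (hC : 0 ≤ C) {Y : ℝ → ℝ} (hZ : IsP Z) (hV : IsP V2)
    (hY : IsE Y) (hThE : ∀ ρ, IsE (Th α Y ρ)) :
    ∃ C1 : ℝ, 0 ≤ C1 ∧ ∀ (N0 : ℕ) (T : ℝ) (W Wt r r' : ℝ → ℝ → ℝ), rho α T ≤ 1 →
      Bg α N0 K T C n Z V2 W Wt r r' → ∀ t ∈ Ioc 0 T, ∀ (s : ℝ → ℝ) (B : ℝ), 0 ≤ B →
      Continuous s → (∀ y, |s y| ≤ B * exp (-|y| / 2)) →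
      |(∫ y, s y * Th α Y (rho α t) y) - ∫ y, s y * inn α W t y| ≤ C1 * rho α t * B := by
  obtain ⟨n1, A1', hA1', b1'⟩ := isP_zero hZ
  obtain ⟨n2, A2', hA2', b2'⟩ := isP_zero hV
  obtain ⟨n3, A3', hA3', b3'⟩ := isP_zero (E_P hY)
  obtain ⟨L1, hL1, l1⟩ := poly_exp n1 (1 / 64) (by norm_num)
  obtain ⟨L2, hL2, l2⟩ := poly_exp n2 (1 / 64) (by norm_num)
  obtain ⟨L3, hL3, l3⟩ := poly_exp n3 (1 / 64) (by norm_num)
  have hex : ∀ y : ℝ, exp (1 / 64 * |y|) = exp (|y| / 64) := by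
    intro y
    congr 1
    ring
  have b1 : ∀ y, |Z y| ≤ (A1' * L1) * exp (|y| / 64) := by
    intro y
    refine (b1' y).trans ?_
    have h1 := l1 |y| (abs_nonneg y)
    rw [hex] at h1
    rw [mul_assoc]
    exact mul_le_mul_of_nonneg_left h1 hA1'
  have b2 : ∀ y, |V2 y| ≤ (A2' * L2) * exp (|y| / 64) := by
    intro y
    refine (b2' y).trans ?_
    have h1 := l2 |y| (abs_nonneg y)
    rw [hex] at h1
    rw [mul_assoc]
    exact mul_le_mul_of_nonneg_left h1 hA2'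
  have b3 : ∀ y, |Y y| ≤ (A3' * L3) * exp (|y| / 64) := by
    intro y
    refine (b3' y).trans ?_
    have h1 := l3 |y| (abs_nonneg y)
    rw [hex] at h1
    rw [mul_assoc]
    exact mul_le_mul_of_nonneg_left h1 hA3'
  set A1 := A1' * L1 with hA1e
  set A2 := A2' * L2 with hA2e
  set A3 := A3' * L3 with hA3e
  have hA1 : 0 ≤ A1 := mul_nonneg hA1' hL1
  have hA2 : 0 ≤ A2 := mul_nonneg hA2' hL2
  have hA3 : 0 ≤ A3 := mul_nonneg hA3' hL3
  have hI := I4_nonneg
  set A := |kap α| * (A3 + A1) + A2 + C with hA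
  have hA0 : 0 ≤ A := by positivity
  refine ⟨I4 * A, by positivity, fun N0 T W Wt r r' hT1 hB t ht s B hB0 hs hsb => ?_⟩
  have hr := (cv.1 t ht.1).2.2.1
  have hr1 : rho α t ≤ 1 := (cv.2 t T ht.1 ht.2).2.2.trans hT1
  have vs := (v_smooth hB ht).continuous
  have vc := v_cs cv hB ht
  have ths : Continuous (Th α Y (rho α t)) := (hThE _).1.continuous
  have hdiff : ∀ y, |Th α Y (rho α t) y - inn α W t y|
      ≤ (rho α t * A) * exp (|y| / 64) := by
    intro y
    set M := exp (|y| / 64) with hM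
    have hM0 : 0 ≤ M := by positivity
    have c1 : |Z y| ≤ A1 * M := b1 y
    have c2 : |V2 y| ≤ A2 * M := b2 y
    have c3 : |Y y| ≤ A3 * M := b3 y
    have c4 : |r t y| ≤ C * M := r_bd hB ht y
    have e1 : Th α Y (rho α t) y - inn α W t y
        = rho α t * (kap α * (Y y - Z y) - rho α t * V2 y - rho α t ^ 2 * r t y) := by
      rw [hB.expn t ht y]
      unfold Th
      ring
    rw [e1, abs_mul, abs_of_pos hr, mul_assoc]
    apply mul_le_mul_of_nonneg_left _ hr.le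
    have d1 : |kap α * (Y y - Z y)| ≤ |kap α| * ((A3 + A1) * M) := by
      rw [abs_mul]
      apply mul_le_mul_of_nonneg_left _ (abs_nonneg _)
      have := abs_sub (Y y) (Z y)
      linarith
    have d2 : |rho α t * V2 y| ≤ A2 * M := by
      rw [abs_mul, abs_of_pos hr]
      calc rho α t * |V2 y| ≤ 1 * (A2 * M) := mul_le_mul hr1 c2 (abs_nonneg _) (by norm_num)
        _ = A2 * M := one_mul _
    have d3 : |rho α t ^ 2 * r t y| ≤ C * M := by
      rw [abs_mul, abs_of_pos (by positivity : 0 < rho α t ^ 2)]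
      have hr2 : rho α t ^ 2 ≤ 1 := pow_le_one₀ hr.le hr1
      calc rho α t ^ 2 * |r t y| ≤ 1 * (C * M) :=
            mul_le_mul hr2 c4 (abs_nonneg _) (by norm_num)
        _ = C * M := one_mul _
    calc |kap α * (Y y - Z y) - rho α t * V2 y - rho α t ^ 2 * r t y|
        ≤ |kap α * (Y y - Z y)| + |rho α t * V2 y| + |rho α t ^ 2 * r t y| := by
          refine (abs_sub _ _).trans ?_
          exact add_le_add_left (abs_sub _ _) _
      _ ≤ |kap α| * ((A3 + A1) * M) + A2 * M + C * M := add_le_add (add_le_add d1 d2) d3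
      _ = A * M := by rw [hA]; ring
  have h1 := pbe (fun y => Th α Y (rho α t) y - inn α W t y) s (rho α t * A) B
    (ths.sub vs) hs (by positivity) hB0 hdiff hsb
  have i1 : Integrable (fun y => s y * inn α W t y) := by
    have := int_cs vs vc hs
    have e : (fun y => s y * inn α W t y) = fun y => inn α W t y * s y := by
      funext y; ring
    rw [e]
    exact this
  have i2 : Integrable (fun y => s y * Th α Y (rho α t) y) := by
    have e : (fun y => s y * Th α Y (rho α t) y) = fun y =>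
        (Th α Y (rho α t) y - inn α W t y) * s y + s y * inn α W t y := by
      funext y; ring
    rw [e]
    exact h1.1.add i1
  rw [← integral_sub i2 i1]
  have e2 : (fun y => s y * Th α Y (rho α t) y - s y * inn α W t y)
      = fun y => (Th α Y (rho α t) y - inn α W t y) * s y := by
    funext y; ring
  rw [e2]
  calc |∫ y, (Th α Y (rho α t) y - inn α W t y) * s y| ≤ I4 * (rho α t * A) * B := h1.2
    _ = I4 * A * rho α t * B := by ring

end bg

theorem Z_P {Z : ℝ → ℝ} (hZ : IsZ1 Z) : IsP Z := by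
  have h1 := addP (E_P hZ.tail) thP
  have h2 : (fun y => (Z y - Real.tanh (2 * y)) + Real.tanh (2 * y)) = Z := by
    funext y; ring
  rwa [h2] at h1

theorem V2_P {α : ℝ} {Z V2 : ℝ → ℝ} (hV : IsV2 α Z V2) : IsP V2 := by
  obtain ⟨p, q, h⟩ := hV.tail
  have h1 : IsP (fun y => (p + q * Real.tanh (2 * y)) + (cc α * y) * Real.tanh (2 * y)) :=
    addP (addP (constP p) (mulPP (constP q) thP)) (mulPP (mulPP (constP (cc α)) idP) thP)
  have h2 := addP (E_P h) h1
  have h3 : (fun y => (V2 y - (p + q * Real.tanh (2 * y)) - cc α * y * Real.tanh (2 * y))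
      + ((p + q * Real.tanh (2 * y)) + (cc α * y) * Real.tanh (2 * y))) = V2 := by
    funext y; ring
  rwa [h3] at h2

theorem subE {f g : ℝ → ℝ} (hf : IsE f) (hg : IsE g) : IsE (fun y => f y - g y) := by
  have h1 := addE hf (constE (-1) hg)
  have h2 : (fun y => f y + (-1) * g y) = fun y => f y - g y := by
    funext y; ring
  rwa [h2] at h1

end Pool.Agent.Helper74.KV

namespace Pool.Agent.Helper33.KV

open Real MeasureTheory Set Filter Topology Pool.Agent.Helper41.KV Pool.Agent.Helper61.KV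
open Pool.Agent.Helper74.KV

/-- PACKET F-PAIR -/
theorem thm_PAIR (_hQ : S_QF) (_hE : S_ECL1) (hC : S_CURVE) (hN : S_IDN) (hT : S_TAUB)
    (hS : S_SRC) (hW : S_WEAK) (hF : S_FLUXP) (hM : S_MASSID) : S_PAIR := by
  intro α K C n Z Y V2 h0 h1 hK hZ hY hV
  have cv : CV α := ⟨(hC α h0 h1).1, (hC α h0 h1).2.1⟩
  obtain ⟨hTE, -⟩ := hT α Z Y V2 hZ hY hV
  obtain ⟨-, n1, n2, -, -, -, -, -, -, -, -, -, n3, n4, n5⟩ := hN α Z Y V2 hZ hY hV
  obtain ⟨Cs', hs'⟩ := hS α K C n Z Y V2 h0 h1 hZ hY hV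
  have hThE : ∀ ρ, IsE (Th α Y ρ) := fun ρ => (hTE ρ).2.2
  have hQE : IsE Q := by
    have h2 := hThE 0
    have h3 : Th α Y 0 = Q := by
      funext y; simp [Th]
    rwa [h3] at h2
  have hZP := Z_P hZ
  have hVP := V2_P hV
  -- coefficient functions
  have eA0 : IsE (Lam Q) := by
    have h2 := (hTE 0).1
    have h3 : tauA α Z 0 = Lam Q := by
      funext y; simp [tauA]
    rwa [h3] at h2
  have eA1 : IsE (fun y => kap α * (y * deriv Z y)) := by
    have h2 := subE (hTE 1).1 eA0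
    have h3 : (fun y => tauA α Z 1 y - Lam Q y) = fun y => kap α * (y * deriv Z y) := by
      funext y; simp [tauA]
    rwa [h3] at h2
  have eB0 : IsE (deriv Q) := derE hQE
  have eB1 : IsE (fun y => kap α * deriv Z y) := by
    have h2 := constE (1 / 2) (subE (hTE 1).2.1 (hTE (-1)).2.1)
    have h3 : (fun y => (1 / 2 : ℝ) * (tauB α Z V2 1 y - tauB α Z V2 (-1) y))
        = fun y => kap α * deriv Z y := by
      funext y; simp only [tauB]; ring
    rwa [h3] at h2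
  have eB2 : IsE (fun y => deriv V2 y - cc α * Z y) := by
    have h2 := subE (constE (1 / 2) (addE (hTE 1).2.1 (hTE (-1)).2.1)) eB0
    have h3 : (fun y => (1 / 2 : ℝ) * (tauB α Z V2 1 y + tauB α Z V2 (-1) y) - deriv Q y)
        = fun y => deriv V2 y - cc α * Z y := by
      funext y; simp only [tauB]; ring
    rwa [h3] at h2
  have gA : ∀ ρ, tauA α Z ρ = GG (Lam Q) (fun y => kap α * (y * deriv Z y)) (fun _ => 0) ρ := by
    intro ρ; funext y; simp only [tauA, GG]; ring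
  have gB : ∀ ρ, tauB α Z V2 ρ = GG (deriv Q) (fun y => kap α * deriv Z y)
      (fun y => deriv V2 y - cc α * Z y) ρ := by
    intro ρ; funext y; simp only [tauB, GG]; ring
  -- the classes of the pairings
  have comm : ∀ f g : ℝ → ℝ, (∫ y, f y * g y) = ∫ y, g y * f y := by
    intro f g
    congr 1
    funext y
    ring
  have kc : ∀ (f g : ℝ → ℝ), (∫ y, f y * (kap α * g y)) = kap α * ∫ y, f y * g y := by
    intro f g
    rw [← integral_const_mul]
    congr 1
    funext y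
    ring
  by_cases hC0 : 0 ≤ C
  swap
  · refine ⟨0, fun N0 T W Wt r r' _ hTpos _ hB => ?_⟩
    exfalso
    have h2 := (hB.rbd T ⟨hTpos, le_rfl⟩).2 0 (by norm_num) 0
    have h3 := abs_nonneg (iteratedDeriv 0 (r T) 0)
    simp only [abs_zero, zero_div, Real.exp_zero, mul_one] at h2
    exact hC0 (h3.trans h2)
  have oA : Osc α (fun i : Ix α K C n Z V2 => i.T) 2
      (fun i => DD α i.W (Lam Q) (fun y => kap α * (y * deriv Z y)) (fun _ => 0)) := by
    refine (osc_DD h0 h1 cv hC0 hQE hZP hVP eA0 eA1 zeroE ?_ ?_).1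
    · rw [comm]; exact n1
    · rw [kc Q (fun y => y * deriv Z y)]
      linear_combination kap α * n3
  have oB : Osc α (fun i : Ix α K C n Z V2 => i.T) 3
      (fun i => DD α i.W (deriv Q) (fun y => kap α * deriv Z y)
      (fun y => deriv V2 y - cc α * Z y)) := by
    refine (osc_DD h0 h1 cv hC0 hQE hZP hVP eB0 eB1 eB2 ?_ ?_).2 ?_
    · rw [comm]; exact n2
    · rw [kc Q (deriv Z)]
      linear_combination kap α * n4
    · rw [kc Z (deriv Z)]
      linear_combination n5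
  obtain ⟨CA, hCA, dA'⟩ := osc_deriv cv oA
  obtain ⟨CB, hCB, dB'⟩ := osc_deriv cv oB
  obtain ⟨DA, hDA, bA'⟩ := oA
  obtain ⟨DB, hDB, bB'⟩ := oB
  obtain ⟨RA, hRA, rA'⟩ := resid_GG (C := C) (n := n) (Z := Z) (V2 := V2) cv hK eA0 eA1 zeroE
  obtain ⟨RB, hRB, rB'⟩ := resid_GG (C := C) (n := n) (Z := Z) (V2 := V2) cv hK eB0 eB1 eB2
  obtain ⟨C1, hC1, toT'⟩ := to_Th (K := K) (n := n) cv hC0 hZP hVP hY.isE hThE
  set Cs := |Cs'| with hCse
  have hCs : 0 ≤ Cs := abs_nonneg _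
  have ha : 0 ≤ |(5 / 2) * (2 * α + 1)| := abs_nonneg _
  refine ⟨(CA + RA + 2 * DB + |(5 / 2) * (2 * α + 1)| * DA + C1 * Cs)
    + (CB + RB + |2 * α + 1| * DB + |(4 / IQ) * cc α| * DA + C1 * Cs),
    fun N0 T W Wt r r' hN0 hTpos hT1 hB t ht => ?_⟩
  have hs2 := hs' N0 T W Wt r r' hTpos hT1 hB
  have hs : ∀ t ∈ Ioc 0 T, ∀ y,
      |srcA α Z V2 (inn α W t) (rho α t) y| ≤ Cs * rho α t ^ 2 * Real.exp (-|y| / 2) ∧
      |srcB α Z V2 (inn α W t) (rho α t) y| ≤ Cs * rho α t ^ 3 * Real.exp (-|y| / 2) := by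
    intro t ht y
    have hr := (cv.1 t ht.1).2.2.1
    have h2 := hs2 t ht y
    refine ⟨h2.1.trans ?_, h2.2.2.1.trans ?_⟩
    · apply mul_le_mul_of_nonneg_right _ (Real.exp_pos _).le
      exact mul_le_mul_of_nonneg_right (le_abs_self _) (by positivity)
    · apply mul_le_mul_of_nonneg_right _ (Real.exp_pos _).le
      exact mul_le_mul_of_nonneg_right (le_abs_self _) (by positivity)
  have dA := dA' ⟨N0, T, W, Wt, r, r', hTpos, hT1, hB⟩
  have dB := dB' ⟨N0, T, W, Wt, r, r', hTpos, hT1, hB⟩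
  have bA := bA' ⟨N0, T, W, Wt, r, r', hTpos, hT1, hB⟩
  have bB := bB' ⟨N0, T, W, Wt, r, r', hTpos, hT1, hB⟩
  have rA := rA' N0 T W Wt r r' hT1 hB
  have rB := rB' N0 T W Wt r r' hT1 hB
  have toT := toT' N0 T W Wt r r' hT1 hB
  simp only at dA dB bA bB
  have ht0 := ht.1
  have hr := (cv.1 t ht0).2.2.1
  have hr1 : rho α t ≤ 1 := (cv.2 t T ht.1 ht.2).2.2.trans hT1
  have vs := v_smooth hB ht
  have vc := v_cs cv hB ht
  set ρ := rho α t with hρ
  set v := inn α W t with hv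
  have hPN3 : ρ ^ N0 ≤ ρ ^ 3 := pow_le_pow_of_le_one hr.le hr1 (by omega)
  have hPN4 : ρ ^ N0 ≤ ρ ^ 4 := pow_le_pow_of_le_one hr.le hr1 hN0
  obtain ⟨d1, hd1, m1⟩ := DD_deriv hW hF hM h0 h1 cv hB eA0 eA1 zeroE ht
  obtain ⟨d2, hd2, m2⟩ := DD_deriv hW hF hM h0 h1 cv hB eB0 eB1 eB2 ht
  have x1 := dA t ht d1 hd1
  have x2 := dB t ht d2 hd2
  have y1 := rA t ht
  have y2 := rB t ht
  have z1 := (bA t ht).1
  have z2 := (bB t ht).1
  have fA : (fun y => 2 * α * ρ ^ 2 * kap α * (y * deriv Z y))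
      = fun y => 2 * α * ρ ^ 2 * (kap α * (y * deriv Z y)) + 4 * α * ρ ^ 3 * (0 : ℝ) := by
    funext y; ring
  have fB : (fun y => 2 * α * ρ ^ 2 * kap α * deriv Z y
        + 4 * α * ρ ^ 3 * (deriv V2 y - cc α * Z y))
      = fun y => 2 * α * ρ ^ 2 * (kap α * deriv Z y)
        + 4 * α * ρ ^ 3 * (deriv V2 y - cc α * Z y) := by
    funext y; ring
  -- continuity
  have cA : Continuous (calL α ρ v (tauA α Z ρ)
      (fun y => 2 * α * ρ ^ 2 * kap α * (y * deriv Z y))) := by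
    refine calL_cont vs (hTE ρ).1.1 ?_
    rw [fA]
    exact (continuous_const.mul eA1.1.continuous).add continuous_const
  have cB : Continuous (calL α ρ v (tauB α Z V2 ρ)
      (fun y => 2 * α * ρ ^ 2 * kap α * deriv Z y
        + 4 * α * ρ ^ 3 * (deriv V2 y - cc α * Z y))) := by
    refine calL_cont vs (hTE ρ).2.1.1 ?_
    rw [fB]
    exact (continuous_const.mul eB1.1.continuous).add (continuous_const.mul eB2.1.continuous)
  have tA : Continuous (tauA α Z ρ) := (hTE ρ).1.1.continuous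
  have tB : Continuous (tauB α Z V2 ρ) := (hTE ρ).2.1.1.continuous
  have sA : Continuous (srcA α Z V2 v ρ) := by
    have e : srcA α Z V2 v ρ = fun y => calL α ρ v (tauA α Z ρ)
        (fun y => 2 * α * ρ ^ 2 * kap α * (y * deriv Z y)) y
        - 2 * tauB α Z V2 ρ y - (5 / 2) * (2 * α + 1) * ρ * tauA α Z ρ y := rfl
    rw [e]
    exact (cA.sub (continuous_const.mul tB)).sub (continuous_const.mul tA)
  have sB : Continuous (srcB α Z V2 v ρ) := by
    have e : srcB α Z V2 v ρ = fun y => calL α ρ v (tauB α Z V2 ρ)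
        (fun y => 2 * α * ρ ^ 2 * kap α * deriv Z y
          + 4 * α * ρ ^ 3 * (deriv V2 y - cc α * Z y)) y
        - (2 * α + 1) * ρ * tauB α Z V2 ρ y + (4 / IQ) * cc α * ρ ^ 2 * tauA α Z ρ y := rfl
    rw [e]
    exact (cB.sub (continuous_const.mul tB)).add (continuous_const.mul tA)
  have icl : ∀ s : ℝ → ℝ, Continuous s → Integrable (fun y => s y * v y) := by
    intro s hs'
    have e : (fun y => s y * v y) = fun y => v y * s y := by
      funext y; ring
    rw [e]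
    exact int_cs vs.continuous vc hs'
  have gAD : (∫ y, tauA α Z ρ y * v y) = DD α W (Lam Q) (fun y => kap α * (y * deriv Z y))
      (fun _ => 0) t := by
    unfold DD
    rw [← gA (rho α t), comm]
  have gBD : (∫ y, tauB α Z V2 ρ y * v y) = DD α W (deriv Q) (fun y => kap α * deriv Z y)
      (fun y => deriv V2 y - cc α * Z y) t := by
    unfold DD
    rw [← gB (rho α t), comm]
  constructor
  · have e1 : (∫ y, srcA α Z V2 v ρ y * v y) = (∫ y, calL α ρ v (tauA α Z ρ)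
        (fun y => 2 * α * ρ ^ 2 * kap α * (y * deriv Z y)) y * v y)
        - 2 * (∫ y, tauB α Z V2 ρ y * v y)
        - (5 / 2) * (2 * α + 1) * ρ * ∫ y, tauA α Z ρ y * v y := by
      have e : (fun y => srcA α Z V2 v ρ y * v y) = fun y => (calL α ρ v (tauA α Z ρ)
          (fun y => 2 * α * ρ ^ 2 * kap α * (y * deriv Z y)) y * v y
          - 2 * (tauB α Z V2 ρ y * v y))
          - ((5 / 2) * (2 * α + 1) * ρ) * (tauA α Z ρ y * v y) := by
        funext y
        unfold srcA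
        ring
      have i1 := icl _ cA
      have i2 := (icl _ tB).const_mul 2
      have i3 := (icl _ tA).const_mul ((5 / 2) * (2 * α + 1) * ρ)
      have i12 : Integrable (fun y => calL α ρ v (tauA α Z ρ)
          (fun y => 2 * α * ρ ^ 2 * kap α * (y * deriv Z y)) y * v y
          - 2 * (tauB α Z V2 ρ y * v y)) := i1.sub i2
      rw [e, integral_sub i12 i3, integral_sub i1 i2, integral_const_mul, integral_const_mul]
    have hm : (∫ y, calL α ρ v (tauA α Z ρ)
        (fun y => 2 * α * ρ ^ 2 * kap α * (y * deriv Z y)) y * v y)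
        = lam α t ^ 3 * d1 - ∫ y, resid α W Wt t y * GG (Lam Q)
          (fun y => kap α * (y * deriv Z y)) (fun _ => 0) ρ y := by
      rw [← m1, gA ρ, fA]
    have h2 := toT t ht (srcA α Z V2 v ρ) (Cs * ρ ^ 2) (by positivity) sA
      (fun y => (hs t ht y).1)
    have h3 : |∫ y, srcA α Z V2 v ρ y * v y|
        ≤ (CA + RA + 2 * DB + |(5 / 2) * (2 * α + 1)| * DA) * ρ ^ 3 := by
      rw [e1, hm, gAD, gBD]
      have a1 : |2 * DD α W (deriv Q) (fun y => kap α * deriv Z y)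
          (fun y => deriv V2 y - cc α * Z y) t| ≤ 2 * DB * ρ ^ 3 := by
        rw [abs_mul, abs_of_pos (by norm_num : (0 : ℝ) < 2)]
        linarith
      have a2 : |(5 / 2) * (2 * α + 1) * ρ * DD α W (Lam Q) (fun y => kap α * (y * deriv Z y))
          (fun _ => 0) t| ≤ |(5 / 2) * (2 * α + 1)| * DA * ρ ^ 3 := by
        rw [abs_mul, abs_mul, abs_of_pos hr]
        calc |(5 / 2) * (2 * α + 1)| * ρ * |DD α W (Lam Q) (fun y => kap α * (y * deriv Z y))
              (fun _ => 0) t| ≤ |(5 / 2) * (2 * α + 1)| * ρ * (DA * ρ ^ 2) :=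
              mul_le_mul_of_nonneg_left z1 (by positivity)
          _ = |(5 / 2) * (2 * α + 1)| * DA * ρ ^ 3 := by ring
      have a3 : |∫ y, resid α W Wt t y * GG (Lam Q)
          (fun y => kap α * (y * deriv Z y)) (fun _ => 0) ρ y| ≤ RA * ρ ^ 3 :=
        y1.trans (mul_le_mul_of_nonneg_left hPN3 hRA)
      have a4 : |lam α t ^ 3 * d1| ≤ CA * ρ ^ 3 := x1
      rw [abs_le] at a1 a2 a3 a4 ⊢
      constructor <;> linarith [a1.1, a1.2, a2.1, a2.2, a3.1, a3.2, a4.1, a4.2]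
    have h4 : C1 * ρ * (Cs * ρ ^ 2) = C1 * Cs * ρ ^ 3 := by ring
    rw [h4] at h2
    have h5 : 0 ≤ (CB + RB + |2 * α + 1| * DB + |(4 / IQ) * cc α| * DA + C1 * Cs) * ρ ^ 3 := by
      positivity
    rw [abs_le] at h2 h3 ⊢
    constructor <;> linarith [h2.1, h2.2, h3.1, h3.2]
  · have e1 : (∫ y, srcB α Z V2 v ρ y * v y) = (∫ y, calL α ρ v (tauB α Z V2 ρ)
        (fun y => 2 * α * ρ ^ 2 * kap α * deriv Z y
          + 4 * α * ρ ^ 3 * (deriv V2 y - cc α * Z y)) y * v y)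
        - (2 * α + 1) * ρ * (∫ y, tauB α Z V2 ρ y * v y)
        + (4 / IQ) * cc α * ρ ^ 2 * ∫ y, tauA α Z ρ y * v y := by
      have e : (fun y => srcB α Z V2 v ρ y * v y) = fun y => (calL α ρ v (tauB α Z V2 ρ)
          (fun y => 2 * α * ρ ^ 2 * kap α * deriv Z y
            + 4 * α * ρ ^ 3 * (deriv V2 y - cc α * Z y)) y * v y
          - ((2 * α + 1) * ρ) * (tauB α Z V2 ρ y * v y))
          + ((4 / IQ) * cc α * ρ ^ 2) * (tauA α Z ρ y * v y) := by
        funext y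
        unfold srcB
        ring
      have i1 := icl _ cB
      have i2 := (icl _ tB).const_mul ((2 * α + 1) * ρ)
      have i3 := (icl _ tA).const_mul ((4 / IQ) * cc α * ρ ^ 2)
      have i12 : Integrable (fun y => calL α ρ v (tauB α Z V2 ρ)
          (fun y => 2 * α * ρ ^ 2 * kap α * deriv Z y
            + 4 * α * ρ ^ 3 * (deriv V2 y - cc α * Z y)) y * v y
          - ((2 * α + 1) * ρ) * (tauB α Z V2 ρ y * v y)) := i1.sub i2
      rw [e, integral_add i12 i3, integral_sub i1 i2, integral_const_mul, integral_const_mul]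
    have hm : (∫ y, calL α ρ v (tauB α Z V2 ρ)
        (fun y => 2 * α * ρ ^ 2 * kap α * deriv Z y
          + 4 * α * ρ ^ 3 * (deriv V2 y - cc α * Z y)) y * v y)
        = lam α t ^ 3 * d2 - ∫ y, resid α W Wt t y * GG (deriv Q) (fun y => kap α * deriv Z y)
          (fun y => deriv V2 y - cc α * Z y) ρ y := by
      rw [← m2, gB ρ, fB]
    have h2 := toT t ht (srcB α Z V2 v ρ) (Cs * ρ ^ 3) (by positivity) sB
      (fun y => (hs t ht y).2)
    have h3 : |∫ y, srcB α Z V2 v ρ y * v y|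
        ≤ (CB + RB + |2 * α + 1| * DB + |(4 / IQ) * cc α| * DA) * ρ ^ 4 := by
      rw [e1, hm, gAD, gBD]
      have a1 : |(2 * α + 1) * ρ * DD α W (deriv Q) (fun y => kap α * deriv Z y)
          (fun y => deriv V2 y - cc α * Z y) t| ≤ |2 * α + 1| * DB * ρ ^ 4 := by
        rw [abs_mul, abs_mul, abs_of_pos hr]
        calc |2 * α + 1| * ρ * |DD α W (deriv Q) (fun y => kap α * deriv Z y)
              (fun y => deriv V2 y - cc α * Z y) t| ≤ |2 * α + 1| * ρ * (DB * ρ ^ 3) :=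
              mul_le_mul_of_nonneg_left z2 (by positivity)
          _ = |2 * α + 1| * DB * ρ ^ 4 := by ring
      have a2 : |(4 / IQ) * cc α * ρ ^ 2 * DD α W (Lam Q) (fun y => kap α * (y * deriv Z y))
          (fun _ => 0) t| ≤ |(4 / IQ) * cc α| * DA * ρ ^ 4 := by
        rw [abs_mul, abs_mul, abs_of_pos (by positivity : 0 < ρ ^ 2)]
        calc |(4 / IQ) * cc α| * ρ ^ 2 * |DD α W (Lam Q) (fun y => kap α * (y * deriv Z y))
              (fun _ => 0) t| ≤ |(4 / IQ) * cc α| * ρ ^ 2 * (DA * ρ ^ 2) :=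
              mul_le_mul_of_nonneg_left z1 (by positivity)
          _ = |(4 / IQ) * cc α| * DA * ρ ^ 4 := by ring
      have a3 : |∫ y, resid α W Wt t y * GG (deriv Q) (fun y => kap α * deriv Z y)
          (fun y => deriv V2 y - cc α * Z y) ρ y| ≤ RB * ρ ^ 4 :=
        y2.trans (mul_le_mul_of_nonneg_left hPN4 hRB)
      have a4 : |lam α t ^ 3 * d2| ≤ CB * ρ ^ 4 := x2
      rw [abs_le] at a1 a2 a3 a4 ⊢
      constructor <;> linarith [a1.1, a1.2, a2.1, a2.2, a3.1, a3.2, a4.1, a4.2]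
    have h4 : C1 * ρ * (Cs * ρ ^ 3) = C1 * Cs * ρ ^ 4 := by ring
    rw [h4] at h2
    have h5 : 0 ≤ (CA + RA + 2 * DB + |(5 / 2) * (2 * α + 1)| * DA + C1 * Cs) * ρ ^ 4 := by
      positivity
    rw [abs_le] at h2 h3 ⊢
    constructor <;> linarith [h2.1, h2.2, h3.1, h3.2]

end Pool.Agent.Helper33.KV
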