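import Pool.Agent.Helper48.KV.GoalsG1
import Pool.Agent.Helper61.KV.ECL1

/-!
# Project KV, packet PW + INTERP
-/

set_option autoImplicit false

namespace Pool.Agent.Helper74.KV

open Real MeasureTheory Set Filter Topology
open Pool.Agent.Helper48.KV Pool.Agent.Helper33.KV Pool.Agent.Helper41.KV

/-- PACKET PW -/
theorem pw (h : S_WT0) : S_PW := by
  intro K hK m δ hδ
  have hK0 : 0 < K := by linarith
  obtain ⟨C, hC0, hC⟩ := Pool.Agent.Helper61.KV.poly_exp (8 * m + 4) (1 / K) (by positivity)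
  refine ⟨min 1 (min (δ ^ 2 / 16) (1 / (C + 1))), ?_, min_le_left _ _, ?_⟩
  · apply lt_min (by norm_num)
    apply lt_min
    · positivity
    · positivity
  intro ρ hρ hρ0 y
  have hρ1 : ρ ≤ 1 := hρ0.trans (min_le_left _ _)
  have hρ2 : ρ ≤ δ ^ 2 / 16 := hρ0.trans ((min_le_right _ _).trans (min_le_left _ _))
  have hρ3 : ρ ≤ 1 / (C + 1) := hρ0.trans ((min_le_right _ _).trans (min_le_right _ _))
  obtain ⟨-, -, -, -, -, -, -, hb, hbig⟩ := h K ρ hK0 hρ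
  have hph := (hb y).1
  have hbig' := hbig hρ1 y
  rcases le_or_gt (ρ * y ^ 8) 1 with hA | hB
  · -- small y
    have h1 : (1 + y ^ 2) ^ 4 ≤ 8 * (1 + y ^ 8) := by
      have ha : 0 ≤ y ^ 2 := sq_nonneg y
      have e : y ^ 8 = (y ^ 2) ^ 4 := by ring
      rw [e]
      generalize y ^ 2 = a at ha
      nlinarith [sq_nonneg (a - 1), sq_nonneg (a ^ 2 - 1), sq_nonneg (a ^ 2 - a),
        mul_nonneg ha (sq_nonneg (a - 1)), mul_nonneg (sq_nonneg a) (sq_nonneg (a - 1))]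
    have h2 : ρ * (1 + y ^ 2) ^ 4 ≤ 16 := by
      calc ρ * (1 + y ^ 2) ^ 4 ≤ ρ * (8 * (1 + y ^ 8)) := mul_le_mul_of_nonneg_left h1 hρ.le
        _ = 8 * ρ + 8 * (ρ * y ^ 8) := by ring
        _ ≤ 16 := by linarith
    have h3 : (ρ ^ 2 * (1 + y ^ 2) ^ 2) ^ 2 ≤ δ ^ 2 := by
      calc (ρ ^ 2 * (1 + y ^ 2) ^ 2) ^ 2 = ρ ^ 3 * (ρ * (1 + y ^ 2) ^ 4) := by ring
        _ ≤ ρ ^ 3 * 16 := mul_le_mul_of_nonneg_left h2 (by positivity)
        _ ≤ ρ * 16 := by
            have : ρ ^ 3 ≤ ρ := by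
              calc ρ ^ 3 ≤ ρ ^ 1 := pow_le_pow_of_le_one hρ.le hρ1 (by norm_num)
                _ = ρ := pow_one ρ
            linarith
        _ ≤ δ ^ 2 := by linarith
    have h4 : ρ ^ 2 * (1 + y ^ 2) ^ 2 ≤ δ := by
      have := abs_le_of_sq_le_sq' h3 hδ.le
      exact this.2
    have h5 : 0 ≤ ρ ^ m := by positivity
    have h6 : ρ ^ 2 * (1 + y ^ 2) ^ 2 * ph1 K ρ y ≤ δ * ph1 K ρ y :=
      mul_le_mul_of_nonneg_right h4 hph.le
    linarith
  · -- large y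
    have h0 : 0 ≤ δ * ph1 K ρ y := by positivity
    have hKρ : Real.exp (-(|y| / K)) / (K * ρ) ≤ Real.exp (-(|y| / K)) / ρ := by
      apply div_le_div_of_nonneg_left (exp_pos _).le hρ
      nlinarith
    have h1 : ph1 K ρ y ≤ Real.exp (-(|y| / K)) / ρ := hbig'.trans hKρ
    have h2 : (1 : ℝ) ≤ (ρ * y ^ 8) ^ m := one_le_pow₀ hB.le
    have hy8 : y ^ 8 = |y| ^ 8 := by
      have : y ^ 8 = (y ^ 2) ^ 4 := by ring
      rw [this, ← sq_abs]
      ring
    have hay := abs_nonneg y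
    have h3 : (1 + y ^ 2) ^ 2 * (y ^ 8) ^ m ≤ C * Real.exp (1 / K * |y|) := by
      refine le_trans ?_ (hC |y| hay)
      rw [hy8, ← pow_mul, pow_add, mul_comm]
      apply mul_le_mul
      · exact pow_le_pow_left₀ hay (by linarith) _
      · have e : (1 + |y|) ^ 4 = ((1 + |y|) ^ 2) ^ 2 := by ring
        rw [e]
        apply pow_le_pow_left₀ (by positivity)
        rw [← sq_abs]
        nlinarith
      · positivity
      · positivity
    have h4 : Real.exp (1 / K * |y|) * Real.exp (-(|y| / K)) = 1 := by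
      rw [← Real.exp_add]
      have : 1 / K * |y| + -(|y| / K) = 0 := by ring
      rw [this, Real.exp_zero]
    have h5 : ρ ^ 2 * (1 + y ^ 2) ^ 2 * ph1 K ρ y ≤ ρ ^ m := by
      calc ρ ^ 2 * (1 + y ^ 2) ^ 2 * ph1 K ρ y
          ≤ ρ ^ 2 * (1 + y ^ 2) ^ 2 * (Real.exp (-(|y| / K)) / ρ) :=
            mul_le_mul_of_nonneg_left h1 (by positivity)
        _ = (ρ * (1 + y ^ 2) ^ 2 * Real.exp (-(|y| / K))) * 1 := by
            field_simp
        _ ≤ (ρ * (1 + y ^ 2) ^ 2 * Real.exp (-(|y| / K))) * (ρ * y ^ 8) ^ m :=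
            mul_le_mul_of_nonneg_left h2 (by positivity)
        _ = ρ * ρ ^ m * (((1 + y ^ 2) ^ 2 * (y ^ 8) ^ m) * Real.exp (-(|y| / K))) := by
            rw [mul_pow]; ring
        _ ≤ ρ * ρ ^ m * ((C * Real.exp (1 / K * |y|)) * Real.exp (-(|y| / K))) := by
            apply mul_le_mul_of_nonneg_left _ (by positivity)
            exact mul_le_mul_of_nonneg_right h3 (exp_pos _).le
        _ = (ρ * C) * ρ ^ m := by
            rw [mul_assoc C, h4]; ring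
        _ ≤ 1 * ρ ^ m := by
            apply mul_le_mul_of_nonneg_right _ (by positivity)
            calc ρ * C ≤ 1 / (C + 1) * C := mul_le_mul_of_nonneg_right hρ3 hC0
              _ = C / (C + 1) := by ring
              _ ≤ 1 := by
                rw [div_le_one (by positivity)]
                linarith
        _ = ρ ^ m := one_mul _
    linarith

theorem bdd_int {b f g : ℝ → ℝ} {M : ℝ} (hb : Continuous b) (hM : ∀ y, |b y| ≤ M)
    (hf : MemLp f 2) (hg : MemLp g 2) : Integrable (fun y => b y * (f y * g y)) := by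
  have h1 : Integrable (fun y => f y * g y) := hf.integrable_mul hg
  refine h1.bdd_mul (c := M) hb.aestronglyMeasurable (Eventually.of_forall fun y => ?_)
  rw [Real.norm_eq_abs]
  exact hM y

/-- PACKET INTERP -/
theorem interp (h : S_WT0) (h2 : S_PW) : S_INTERP := by
  intro K hK m δ hδ
  have hK0 : 0 < K := by linarith
  set c : ℝ := 8 / δ + 4 with hc
  have hc0 : 0 < c := by positivity
  obtain ⟨ρ1, hρ1, hρ1', hpw⟩ := h2 K hK (m + 1) (δ / c) (by positivity)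
  refine ⟨min ρ1 (1 / c), lt_min hρ1 (by positivity), (min_le_left _ _).trans hρ1', ?_⟩
  intro ρ hρ hρ0 ε hε
  have hρa : ρ ≤ ρ1 := hρ0.trans (min_le_left _ _)
  have hρb : ρ ≤ 1 / c := hρ0.trans (min_le_right _ _)
  have hρle : ρ ≤ 1 := hρa.trans hρ1'
  obtain ⟨ws, ps, wb, -, wd, pd, p2d, hb, -⟩ := h K ρ hK0 hρ
  have hp : ∀ y, ρ ^ 2 * (1 + y ^ 2) ^ 2 * ph1 K ρ y ≤ δ / c * ph1 K ρ y + ρ ^ (m + 1) :=
    hpw ρ hρ hρa
  have cw : Continuous (wt K ρ) := ws.continuous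
  have cp : Continuous (ph1 K ρ) := ps.continuous
  have cp2 : Continuous (ph2 K ρ) := by
    have e : ph2 K ρ = fun y => ph1 K ρ y * (1 - 2 * wt K ρ y) / K := rfl
    rw [e]
    fun_prop
  have cp3 : Continuous (ph3 K ρ) := by
    have e : ph3 K ρ = fun y => ph1 K ρ y * (1 - 6 * wt K ρ y + 6 * wt K ρ y ^ 2) / K ^ 2 := rfl
    rw [e]
    fun_prop
  have hp1le : ∀ y, ph1 K ρ y ≤ 1 := by
    intro y
    refine (hb y).2.1.trans ?_
    rw [div_le_one hK0]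
    linarith [(wb y).2]
  have b2 : ∀ y, |ph2 K ρ y| ≤ ph1 K ρ y := fun y =>
    (hb y).2.2.1.trans (div_le_self (hb y).1.le hK)
  have b3 : ∀ y, |ph3 K ρ y| ≤ ph1 K ρ y := fun y =>
    (hb y).2.2.2.trans (div_le_self (hb y).1.le (one_le_pow₀ hK))
  -- the weight and its derivatives
  set ψ : ℝ → ℝ := fun y => ρ ^ 2 * (4 + y ^ 2) * ph1 K ρ y with hψ
  set ψ1 : ℝ → ℝ := fun y => ρ ^ 2 * (2 * y) * ph1 K ρ y + ρ ^ 2 * (4 + y ^ 2) * ph2 K ρ y
    with hψ1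
  set ψ2 : ℝ → ℝ := fun y => ρ ^ 2 * 2 * ph1 K ρ y + ρ ^ 2 * (2 * y) * ph2 K ρ y
    + (ρ ^ 2 * (2 * y) * ph2 K ρ y + ρ ^ 2 * (4 + y ^ 2) * ph3 K ρ y) with hψ2
  have dψ : ∀ y, HasDerivAt ψ (ψ1 y) y := by
    intro y
    have d1 : HasDerivAt (fun y : ℝ => ρ ^ 2 * (4 + y ^ 2)) (ρ ^ 2 * (2 * y)) y := by
      have := ((hasDerivAt_pow 2 y).const_add 4).const_mul (ρ ^ 2)
      simpa using this
    exact d1.mul (wd y |> fun _ => pd y)
  have dψ1 : ∀ y, HasDerivAt ψ1 (ψ2 y) y := by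
    intro y
    have d1 : HasDerivAt (fun y : ℝ => ρ ^ 2 * (4 + y ^ 2)) (ρ ^ 2 * (2 * y)) y := by
      have := ((hasDerivAt_pow 2 y).const_add 4).const_mul (ρ ^ 2)
      simpa using this
    have d2 : HasDerivAt (fun y : ℝ => ρ ^ 2 * (2 * y)) (ρ ^ 2 * 2) y := by
      have := ((hasDerivAt_id y).const_mul 2).const_mul (ρ ^ 2)
      simpa using this
    exact (d2.mul (pd y)).add (d1.mul (p2d y))
  have cψ : Continuous ψ := by rw [hψ]; fun_prop
  have cψ1 : Continuous ψ1 := by rw [hψ1]; fun_prop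
  have cψ2 : Continuous ψ2 := by rw [hψ2]; fun_prop
  -- bounds
  set X : ℝ → ℝ := fun y => ρ ^ 2 * (1 + y ^ 2) ^ 2 * ph1 K ρ y with hX
  have hX0 : ∀ y, 0 ≤ X y := fun y => by
    have := (hb y).1
    simp only [hX]
    positivity
  have hXle : ∀ y, X y ≤ δ / c + 1 := by
    intro y
    have h3 : ρ ^ (m + 1) ≤ 1 := pow_le_one₀ hρ.le hρle
    have h4 : δ / c * ph1 K ρ y ≤ δ / c * 1 :=
      mul_le_mul_of_nonneg_left (hp1le y) (by positivity)
    have := hp y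
    simp only [hX]
    linarith
  have hy1 : ∀ y : ℝ, 4 + y ^ 2 ≤ 4 * (1 + y ^ 2) ^ 2 := fun y => by nlinarith [sq_nonneg y]
  have hy2 : ∀ y : ℝ, |2 * y| ≤ (1 + y ^ 2) ^ 2 := fun y => by
    rw [abs_mul, abs_of_pos (by norm_num : (0 : ℝ) < 2)]
    have e := sq_abs y
    have := abs_nonneg y
    nlinarith [sq_nonneg (|y| - 1), sq_nonneg y]
  have hψX : ∀ y, |ψ y| ≤ 4 * X y := by
    intro y
    have hq := (hb y).1
    simp only [hψ, hX]
    rw [abs_of_nonneg (by positivity)]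
    have : ρ ^ 2 * (4 + y ^ 2) * ph1 K ρ y ≤ ρ ^ 2 * (4 * (1 + y ^ 2) ^ 2) * ph1 K ρ y := by
      apply mul_le_mul_of_nonneg_right _ hq.le
      exact mul_le_mul_of_nonneg_left (hy1 y) (by positivity)
    linarith
  have aux1 : ∀ y (q : ℝ), |q| ≤ ph1 K ρ y → |ρ ^ 2 * (2 * y) * q| ≤ X y := by
    intro y q hq
    have hq1 := (hb y).1
    simp only [hX]
    rw [abs_mul, abs_mul, abs_of_nonneg (by positivity : 0 ≤ ρ ^ 2)]
    apply mul_le_mul _ hq (abs_nonneg _) (by positivity)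
    exact mul_le_mul_of_nonneg_left (hy2 y) (by positivity)
  have aux2 : ∀ y (q : ℝ), |q| ≤ ph1 K ρ y → |ρ ^ 2 * (4 + y ^ 2) * q| ≤ 4 * X y := by
    intro y q hq
    have hq1 := (hb y).1
    simp only [hX]
    rw [abs_mul, abs_of_nonneg (by positivity : 0 ≤ ρ ^ 2 * (4 + y ^ 2))]
    calc ρ ^ 2 * (4 + y ^ 2) * |q| ≤ (ρ ^ 2 * (4 * (1 + y ^ 2) ^ 2)) * ph1 K ρ y := by
          apply mul_le_mul _ hq (abs_nonneg _) (by positivity)
          exact mul_le_mul_of_nonneg_left (hy1 y) (by positivity)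
      _ = _ := by ring
  have aux3 : ∀ y, |ρ ^ 2 * 2 * ph1 K ρ y| ≤ 2 * X y := by
    intro y
    have hq1 := (hb y).1
    simp only [hX]
    rw [abs_of_nonneg (by positivity)]
    have h3 : (1 : ℝ) ≤ (1 + y ^ 2) ^ 2 := by nlinarith [sq_nonneg y]
    have h4 : ρ ^ 2 * ph1 K ρ y * 1 ≤ ρ ^ 2 * ph1 K ρ y * (1 + y ^ 2) ^ 2 :=
      mul_le_mul_of_nonneg_left h3 (by positivity)
    linarith
  have hp1a : ∀ y, |ph1 K ρ y| ≤ ph1 K ρ y := fun y => (abs_of_pos (hb y).1).le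
  have hψ1X : ∀ y, |ψ1 y| ≤ 5 * X y := by
    intro y
    have a1 := aux1 y _ (hp1a y)
    have a2 := aux2 y _ (b2 y)
    have a3 := abs_add_le (ρ ^ 2 * (2 * y) * ph1 K ρ y) (ρ ^ 2 * (4 + y ^ 2) * ph2 K ρ y)
    simp only [hψ1]
    linarith
  have hψ2X : ∀ y, |ψ2 y| ≤ 8 * X y := by
    intro y
    have a0 := aux3 y
    have a1 := aux1 y _ (b2 y)
    have a2 := aux2 y _ (b3 y)
    have a3 := abs_add_le (ρ ^ 2 * 2 * ph1 K ρ y + ρ ^ 2 * (2 * y) * ph2 K ρ y)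
      (ρ ^ 2 * (2 * y) * ph2 K ρ y + ρ ^ 2 * (4 + y ^ 2) * ph3 K ρ y)
    have a4 := abs_add_le (ρ ^ 2 * 2 * ph1 K ρ y) (ρ ^ 2 * (2 * y) * ph2 K ρ y)
    have a5 := abs_add_le (ρ ^ 2 * (2 * y) * ph2 K ρ y) (ρ ^ 2 * (4 + y ^ 2) * ph3 K ρ y)
    simp only [hψ2]
    linarith
  set M : ℝ := 8 * (δ / c + 1) with hM
  have Mψ : ∀ y, |ψ y| ≤ M := fun y => by
    have := hψX y; have := hXle y; have := hX0 y; linarith
  have Mψ1 : ∀ y, |ψ1 y| ≤ M := fun y => by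
    have := hψ1X y; have := hXle y; have := hX0 y; linarith
  have Mψ2 : ∀ y, |ψ2 y| ≤ M := fun y => by
    have := hψ2X y; have := hXle y; have := hX0 y; linarith
  -- the function
  have L0 : MemLp ε 2 := by
    have := hε.2 0
    rwa [iteratedDeriv_zero] at this
  have L1 : MemLp (deriv ε) 2 := by
    have := hε.2 1
    rwa [iteratedDeriv_one] at this
  have L2 : MemLp (deriv (deriv ε)) 2 := by
    have := hε.2 2
    rwa [iteratedDeriv_succ, iteratedDeriv_one] at this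
  have s1 : ContDiff ℝ (⊤ : ℕ∞) (deriv ε) := (contDiff_infty_iff_deriv.1 hε.1).2
  have d0 : ∀ y, HasDerivAt ε (deriv ε y) y := fun y =>
    ((contDiff_infty_iff_deriv.1 hε.1).1 y).hasDerivAt
  have d1 : ∀ y, HasDerivAt (deriv ε) (deriv (deriv ε) y) y := fun y =>
    ((contDiff_infty_iff_deriv.1 s1).1 y).hasDerivAt
  have iA : Integrable (fun y => ψ y * (deriv ε y * deriv ε y)) := bdd_int cψ Mψ L1 L1
  have iB : Integrable (fun y => ψ y * (ε y * deriv (deriv ε) y)) := bdd_int cψ Mψ L0 L2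
  have iC : Integrable (fun y => ψ2 y * (ε y * ε y)) := bdd_int cψ2 Mψ2 L0 L0
  have iF1 : Integrable (fun y => ψ y * (ε y * deriv ε y)) := bdd_int cψ Mψ L0 L1
  have iF2 : Integrable (fun y => ψ1 y * (ε y * ε y)) := bdd_int cψ1 Mψ1 L0 L0
  have iP2 : Integrable (fun y => ph1 K ρ y * (deriv (deriv ε) y * deriv (deriv ε) y)) :=
    bdd_int cp (M := 1) (fun y => (hp1a y).trans (hp1le y)) L2 L2
  have iP0 : Integrable (fun y => ph1 K ρ y * (ε y * ε y)) :=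
    bdd_int cp (M := 1) (fun y => (hp1a y).trans (hp1le y)) L0 L0
  have iE : Integrable (fun y => ε y * ε y) := L0.integrable_mul L0
  have hzero : ∫ y, ((ψ1 y * (ε y * deriv ε y) + ψ y * (deriv ε y * deriv ε y
      + ε y * deriv (deriv ε) y)) - (1 / 2) * (ψ2 y * (ε y * ε y)
      + ψ1 y * (deriv ε y * ε y + ε y * deriv ε y))) = 0 := by
    apply integral_eq_zero_of_hasDerivAt_of_integrable
      (f := fun y => ψ y * (ε y * deriv ε y) - (1 / 2) * (ψ1 y * (ε y * ε y)))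
    · intro y
      exact ((dψ y).mul ((d0 y).mul (d1 y))).sub
        (((dψ1 y).mul ((d0 y).mul (d0 y))).const_mul (1 / 2))
    · have e : (fun y => (ψ1 y * (ε y * deriv ε y) + ψ y * (deriv ε y * deriv ε y
          + ε y * deriv (deriv ε) y)) - (1 / 2) * (ψ2 y * (ε y * ε y)
          + ψ1 y * (deriv ε y * ε y + ε y * deriv ε y)))
          = fun y => (ψ y * (deriv ε y * deriv ε y) + ψ y * (ε y * deriv (deriv ε) y))
            - (1 / 2) * (ψ2 y * (ε y * ε y)) := by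
        funext y; ring
      rw [e]
      exact (iA.add iB).sub (iC.const_mul _)
    · exact iF1.sub (iF2.const_mul _)
  have hid : (∫ y, ψ y * (deriv ε y * deriv ε y))
      = ∫ y, (-(ψ y * (ε y * deriv (deriv ε) y)) + (1 / 2) * (ψ2 y * (ε y * ε y))) := by
    have iR : Integrable (fun y => -(ψ y * (ε y * deriv (deriv ε) y))
        + (1 / 2) * (ψ2 y * (ε y * ε y))) := iB.neg.add (iC.const_mul _)
    have h3 : (∫ y, ψ y * (deriv ε y * deriv ε y))
        - ∫ y, (-(ψ y * (ε y * deriv (deriv ε) y)) + (1 / 2) * (ψ2 y * (ε y * ε y))) = 0 := by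
      rw [← integral_sub iA iR, ← hzero]
      congr 1
      funext y
      ring
    linarith
  have e0 : (fun y => ρ ^ 2 * (4 + y ^ 2) * ph1 K ρ y * deriv ε y ^ 2)
      = fun y => ψ y * (deriv ε y * deriv ε y) := by
    funext y
    simp only [hψ]
    ring
  have e1 : (fun y => ph1 K ρ y * (deriv (deriv ε) y ^ 2 + ε y ^ 2))
      = fun y => ph1 K ρ y * (deriv (deriv ε) y * deriv (deriv ε) y)
        + ph1 K ρ y * (ε y * ε y) := by
    funext y
    ring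
  have e2 : (fun y => ε y ^ 2) = fun y => ε y * ε y := by
    funext y; ring
  rw [e0, e1, e2, hid]
  have iS : Integrable (fun y => ph1 K ρ y * (deriv (deriv ε) y * deriv (deriv ε) y)
        + ph1 K ρ y * (ε y * ε y)) := iP2.add iP0
  rw [← integral_const_mul, ← integral_const_mul, ← integral_add (iS.const_mul _)
    (iE.const_mul _)]
  apply integral_mono (iB.neg.add (iC.const_mul _)) ((iS.const_mul _).add (iE.const_mul _))
  intro y
  simp only [Pi.add_apply, Pi.neg_apply]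
  -- pointwise
  have hq1 := (hb y).1
  have hXy := hX0 y
  have hpy : X y ≤ δ / c * ph1 K ρ y + ρ ^ (m + 1) := hp y
  have f1 : -(ψ y * (ε y * deriv (deriv ε) y))
      ≤ δ / 2 * (ph1 K ρ y * deriv (deriv ε) y ^ 2) + 8 / δ * (X y * ε y ^ 2) := by
    have h3 : 0 ≤ (δ / 2) * ph1 K ρ y * (deriv (deriv ε) y
        + ρ ^ 2 * (4 + y ^ 2) / δ * ε y) ^ 2 := by positivity
    have h4 : (δ / 2) * ph1 K ρ y * (deriv (deriv ε) y + ρ ^ 2 * (4 + y ^ 2) / δ * ε y) ^ 2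
        = δ / 2 * (ph1 K ρ y * deriv (deriv ε) y ^ 2) + ψ y * (ε y * deriv (deriv ε) y)
          + 1 / (2 * δ) * (ρ ^ 4 * (4 + y ^ 2) ^ 2 * ph1 K ρ y * ε y ^ 2) := by
      simp only [hψ]
      field_simp
      ring
    have h5 : ρ ^ 4 * (4 + y ^ 2) ^ 2 * ph1 K ρ y ≤ 16 * X y := by
      have h6 : ρ ^ 4 ≤ ρ ^ 2 := pow_le_pow_of_le_one hρ.le hρle (by norm_num)
      have h7 : (4 + y ^ 2) ^ 2 ≤ 16 * (1 + y ^ 2) ^ 2 := by nlinarith [sq_nonneg y]
      calc ρ ^ 4 * (4 + y ^ 2) ^ 2 * ph1 K ρ y ≤ ρ ^ 2 * (16 * (1 + y ^ 2) ^ 2) * ph1 K ρ y := by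
            apply mul_le_mul_of_nonneg_right _ hq1.le
            exact mul_le_mul h6 h7 (by positivity) (by positivity)
        _ = 16 * X y := by simp only [hX]; ring
    have h8 : 1 / (2 * δ) * (ρ ^ 4 * (4 + y ^ 2) ^ 2 * ph1 K ρ y * ε y ^ 2)
        ≤ 8 / δ * (X y * ε y ^ 2) := by
      calc 1 / (2 * δ) * (ρ ^ 4 * (4 + y ^ 2) ^ 2 * ph1 K ρ y * ε y ^ 2)
          ≤ 1 / (2 * δ) * ((16 * X y) * ε y ^ 2) := by
            apply mul_le_mul_of_nonneg_left _ (by positivity)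
            exact mul_le_mul_of_nonneg_right h5 (sq_nonneg _)
        _ = 8 / δ * (X y * ε y ^ 2) := by
            field_simp
            ring
    linarith
  have f2 : (1 / 2) * (ψ2 y * (ε y * ε y)) ≤ 4 * (X y * ε y ^ 2) := by
    have h3 := (le_abs_self (ψ2 y)).trans (hψ2X y)
    have h4 : ψ2 y * ε y ^ 2 ≤ (8 * X y) * ε y ^ 2 := mul_le_mul_of_nonneg_right h3 (sq_nonneg _)
    have h5 : ψ2 y * (ε y * ε y) = ψ2 y * ε y ^ 2 := by ring
    rw [h5]
    linarith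
  have f3 : c * (X y * ε y ^ 2) ≤ δ * (ph1 K ρ y * ε y ^ 2) + ρ ^ m * ε y ^ 2 := by
    have h3 : X y * ε y ^ 2 ≤ (δ / c * ph1 K ρ y + ρ ^ (m + 1)) * ε y ^ 2 :=
      mul_le_mul_of_nonneg_right hpy (sq_nonneg _)
    have h4 : c * ((δ / c * ph1 K ρ y + ρ ^ (m + 1)) * ε y ^ 2)
        = δ * (ph1 K ρ y * ε y ^ 2) + (c * ρ) * (ρ ^ m * ε y ^ 2) := by
      rw [pow_succ]
      field_simp
    have h5 : c * ρ ≤ 1 := by
      calc c * ρ ≤ c * (1 / c) := mul_le_mul_of_nonneg_left hρb hc0.le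
        _ = 1 := by field_simp
    have h6 : (c * ρ) * (ρ ^ m * ε y ^ 2) ≤ 1 * (ρ ^ m * ε y ^ 2) :=
      mul_le_mul_of_nonneg_right h5 (by positivity)
    calc c * (X y * ε y ^ 2) ≤ c * ((δ / c * ph1 K ρ y + ρ ^ (m + 1)) * ε y ^ 2) :=
          mul_le_mul_of_nonneg_left h3 hc0.le
      _ = δ * (ph1 K ρ y * ε y ^ 2) + (c * ρ) * (ρ ^ m * ε y ^ 2) := h4
      _ ≤ _ := by linarith
  have f4 : 8 / δ * (X y * ε y ^ 2) + 4 * (X y * ε y ^ 2) = c * (X y * ε y ^ 2) := by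
    rw [hc]; ring
  have f5 : 0 ≤ δ / 2 * (ph1 K ρ y * deriv (deriv ε) y ^ 2) := by positivity
  nlinarith [f1, f2, f3, f4, f5]

end Pool.Agent.Helper74.KV
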